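import Pool.Agent.DG.Lip

/-!
# D2 block V, file DG/Arc: existence of minimal arcs of free duration (any n)

PROOF of `exists_free`.  `x ≠ y`, `E > E₀`.
* For `k : ℕ` there are a duration `T k > 0` and a curve from `x` to `y` with cost
  `< DD ℓ E x y + 1/(k+1)` (`dd_lt`); by `FT` a minimal solution `X k, W k` from `x` to `y` of the same
  duration, with `act X W ≤ act z u`, so its cost is also `< DD ℓ E x y + 1/(k+1)`.
* `T k ≤ τ₁ := C (1 + ‖y - x‖)` by `cur_time` (`E₁ = (E₀ + E)/2`, `E₂ = E`).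
* `T k ≥ τ₀ > 0`: `act_low` with `B = (DD + 1 + |E| τ₁ + 1) / ‖y - x‖` (if `≥ 0`, otherwise
  `B = 0`...; take `B = (|DD| + 1 + |E| τ₁ + 1)/‖y - x‖`): `B ‖y - x‖ - C_B T ≤ act ≤ |DD| + 1 + |E| τ₁`,
  so `C_B T ≥ 1`, `T ≥ 1/(C_B + 1)`.
* So `‖y - x‖ ≤ R T k` with `R = ‖y - x‖/τ₀`, and `spd` bounds the speeds: `‖W k 0‖ ≤ M`.
* `(T k, W k 0)` lies in the compact set `[τ₀, τ₁] × closedBall 0 M`: a subsequence converges to `(T, v)`
  (`IsCompact.tendsto_subseq`).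
* `X k t = (fl ℓ t (x, W k 0)).1`, `W k t = (fl ..).2` (`Sol.eq_fl`), so `act X W 0 T = Ac ℓ (T k) (x, W k 0)`
  and `(fl ℓ (T k) (x, W k 0)).1 = y`; by continuity of `fl` and `Ac` (`fl_cont`, `ac_cont`):
  `(fl ℓ T (x, v)).1 = y`, `Ac ℓ T (x, v) + E T ≤ DD ℓ E x y`; `≥` is `dd_act`.
`fl_cont`: from `fl_ana`.  `ac_cont`: `Ac ℓ t z = ∫_0^t ℓ (fl ℓ s z) ds`, parametric integral with
variable end point: `intervalIntegral.continuous_parametric_intervalIntegral_of_continuous`.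
-/

set_option autoImplicit false

namespace Pool.Agent.DG

open Set Filter Topology MeasureTheory Pool.Agent.MechAlpha Pool.Agent.DF Pool.Agent.LRig
  Pool.Agent.DV Pool.Agent.NOne
open scoped ContDiff RealInnerProductSpace

variable {n : ℕ} {ℓ : Vec n × Vec n → ℝ} {c₀ : Vec n} {E₀ : ℝ}

theorem fl_cont (h : Sys ℓ) : Continuous fun p : ℝ × Vec n × Vec n => fl ℓ p.1 p.2 :=
  continuous_iff_continuousAt.2 fun q => (fl_ana h.lag h.ana h.cpl q (mem_univ q)).continuousAt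

theorem ac_cont (h : Sys ℓ) : Continuous fun p : ℝ × Vec n × Vec n => Ac ℓ p.1 p.2 := by
  have h1 : Continuous (Function.uncurry fun (q : ℝ × Vec n × Vec n) (s : ℝ) =>
      ℓ (fl ℓ s q.2)) := by
    have h2 : Continuous fun p : (ℝ × Vec n × Vec n) × ℝ =>
        ((p.2, p.1.2) : ℝ × Vec n × Vec n) := by
      fun_prop
    exact h.cont.comp ((fl_cont h).comp h2)
  exact intervalIntegral.continuous_parametric_intervalIntegral_of_continuous
    (a₀ := (0 : ℝ)) h1 continuous_fst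

private theorem sol_ac (h : Sys ℓ) {X W : ℝ → Vec n} (hS : Sol ℓ X W) (t : ℝ) :
    act ℓ X W 0 t = Ac ℓ t (X 0, W 0) := by
  have h1 : X = fun s => (fl ℓ s (X 0, W 0)).1 := funext fun s =>
    congrArg Prod.fst (hS.eq_fl h.lag h.ana h.cpl s)
  have h2 : W = fun s => (fl ℓ s (X 0, W 0)).2 := funext fun s =>
    congrArg Prod.snd (hS.eq_fl h.lag h.ana h.cpl s)
  unfold Ac
  rw [← h1, ← h2]

/-- minimal solutions of free duration exist -/
theorem exists_free (h : Sys ℓ) (hft : FT ℓ) (hc : CloR ℓ c₀ E₀) {E : ℝ} (hE : E₀ < E)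
    {x y : Vec n} (hxy : x ≠ y) : ∃ (v : Vec n) (T : ℝ), 0 < T ∧ (fl ℓ T (x, v)).1 = y ∧
      Ac ℓ T (x, v) + E * T = DD ℓ E x y := by
  obtain ⟨C, hC0, hC⟩ := cur_time h hc hE E
  have hd : 0 < ‖y - x‖ := norm_pos_iff.2 (sub_ne_zero.2 hxy.symm)
  set D : ℝ := DD ℓ E x y with hD
  -- nearly minimal solutions
  have key : ∀ k : ℕ, ∃ (T : ℝ) (X W : ℝ → Vec n), 0 < T ∧ X 0 = x ∧ X T = y ∧ Mini ℓ X W T ∧
      act ℓ X W 0 T + E * T < D + 1 / ((k : ℝ) + 1) := by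
    intro k
    have hk : (0 : ℝ) < 1 / ((k : ℝ) + 1) := by positivity
    obtain ⟨T, z, u, hT, hz, hz0, hzT, hlt⟩ := dd_lt (x := x) (y := y) (E := E)
      (r := D + 1 / ((k : ℝ) + 1)) h (by linarith)
    obtain ⟨X, W, hX0, hXT, hM⟩ := hft T hT x y
    refine ⟨T, X, W, hT, hX0, hXT, hM, ?_⟩
    have h1 := hM.2 z u hz (by rw [hz0, hX0]) (by rw [hzT, hXT])
    linarith
  choose T X W hT hX0 hXT hM hact using key
  have hk1 : ∀ k : ℕ, 1 / ((k : ℝ) + 1) ≤ 1 := by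
    intro k
    rw [div_le_one (by positivity)]
    have : (0 : ℝ) ≤ k := Nat.cast_nonneg k
    linarith
  -- durations
  set τ₁ : ℝ := C * (1 + ‖y - x‖) with hτ₁
  have hup : ∀ k, T k ≤ τ₁ := by
    intro k
    have h1 := hC E (X k) (W k) (T k) le_rfl le_rfl (hT k) ((hM k).1.vcv h.lag (hT k).le) (by
      rw [hX0, hXT]
      have := hact k
      have := hk1 k
      linarith)
    rw [hX0, hXT] at h1
    exact h1
  set Q : ℝ := |D| + 1 + |E| * τ₁ with hQ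
  have hτ₁0 : 0 < τ₁ := (hT 0).trans_le (hup 0)
  have hQ0 : 0 ≤ Q := by positivity
  have hactQ : ∀ k, act ℓ (X k) (W k) 0 (T k) ≤ Q := by
    intro k
    have h1 := hact k
    have h2 := hk1 k
    have h3 : -(E * T k) ≤ |E| * τ₁ := by
      have h4 : -(E * T k) ≤ |E| * T k := by
        have := neg_abs_le E
        nlinarith [hT k]
      exact h4.trans (mul_le_mul_of_nonneg_left (hup k) (abs_nonneg _))
    have h5 := le_abs_self D
    linarith
  obtain ⟨CB, hCB0, hCB⟩ := act_low h (B := (Q + 1) / ‖y - x‖) (by positivity)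
  set τ₀ : ℝ := 1 / (CB + 1) with hτ₀
  have hτ₀0 : 0 < τ₀ := by positivity
  have hlow : ∀ k, τ₀ ≤ T k := by
    intro k
    have h1 := hCB (X k) (W k) (T k) (hT k).le ((hM k).1.vcv h.lag (hT k).le)
    rw [hX0, hXT, div_mul_cancel₀ _ hd.ne'] at h1
    have h2 := hactQ k
    rw [hτ₀, div_le_iff₀ (by linarith)]
    nlinarith [hT k]
  -- speeds
  obtain ⟨M, hM0, hspd⟩ := spd h (‖y - x‖ / τ₀)
  have hW : ∀ k, ‖W k 0‖ ≤ M := by
    intro k
    refine hspd (X k) (W k) (T k) (hM k) (hT k) ?_ 0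
    rw [hX0, hXT, div_mul_eq_mul_div, le_div_iff₀ hτ₀0]
    exact mul_le_mul_of_nonneg_left (hlow k) hd.le
  -- compactness
  have hK : IsCompact (Icc τ₀ τ₁ ×ˢ Metric.closedBall (0 : Vec n) M) :=
    isCompact_Icc.prod (isCompact_closedBall _ _)
  obtain ⟨⟨T', v⟩, hTv, ψ, hψ, hlim⟩ := hK.tendsto_subseq (x := fun k => (T k, W k 0))
    (fun k => ⟨⟨hlow k, hup k⟩, mem_closedBall_zero_iff.2 (hW k)⟩)
  have hT'0 : 0 < T' := hτ₀0.trans_le hTv.1.1
  have hmap : Continuous fun p : ℝ × Vec n => ((p.1, x, p.2) : ℝ × Vec n × Vec n) := by fun_prop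
  have hl1 : Tendsto (fun k => (fl ℓ (T (ψ k)) (x, W (ψ k) 0)).1) atTop
      (𝓝 (fl ℓ T' (x, v)).1) :=
    ((continuous_fst.comp ((fl_cont h).comp hmap)).tendsto (T', v)).comp hlim
  have hl2 : Tendsto (fun k => Ac ℓ (T (ψ k)) (x, W (ψ k) 0)) atTop (𝓝 (Ac ℓ T' (x, v))) :=
    (((ac_cont h).comp hmap).tendsto (T', v)).comp hlim
  have hl3 : Tendsto (fun k => T (ψ k)) atTop (𝓝 T') :=
    (continuous_fst.tendsto (T', v)).comp hlim
  have e1 : ∀ k, (fl ℓ (T k) (x, W k 0)).1 = y := by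
    intro k
    have h1 := (hM k).1.eq_fl h.lag h.ana h.cpl (T k)
    rw [hX0] at h1
    rw [← h1]
    exact hXT k
  have e2 : ∀ k, Ac ℓ (T k) (x, W k 0) + E * T k < D + 1 / ((k : ℝ) + 1) := by
    intro k
    have h1 := sol_ac h (hM k).1 (T k)
    rw [hX0] at h1
    rw [← h1]
    exact hact k
  have hy : (fl ℓ T' (x, v)).1 = y := by
    refine tendsto_nhds_unique hl1 ?_
    have e3 : (fun k => (fl ℓ (T (ψ k)) (x, W (ψ k) 0)).1) = fun _ => y :=
      funext fun k => e1 (ψ k)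
    rw [e3]
    exact tendsto_const_nhds
  refine ⟨v, T', hT'0, hy, le_antisymm ?_ ?_⟩
  · have h1 : Tendsto (fun k => Ac ℓ (T (ψ k)) (x, W (ψ k) 0) + E * T (ψ k)) atTop
        (𝓝 (Ac ℓ T' (x, v) + E * T')) := hl2.add (hl3.const_mul E)
    have h2 : Tendsto (fun k : ℕ => D + 1 / (((ψ k : ℕ) : ℝ) + 1)) atTop (𝓝 (D + 0)) :=
      tendsto_const_nhds.add (tendsto_one_div_add_atTop_nhds_zero_nat.comp hψ.tendsto_atTop)
    rw [add_zero] at h2
    exact le_of_tendsto_of_tendsto' h1 h2 fun k => (e2 (ψ k)).le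
  · have h1 := dd_act h hc hE.le hT'0.le x v
    rw [hy] at h1
    exact h1

end Pool.Agent.DG
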