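import Pool.Agent.DG.Dis

/-!
# D2 block V, file DG/Ene: the energy of minimal arcs of free duration (any n)

PROOF of `en_of_free`.  Let `X t = (fl ℓ t (x, v)).1`, `W t = (fl ℓ t (x, v)).2`, `Sol` on `[0,
T]`, and
suppose `act X W 0 T + E T = DD ℓ E x y`.
For `lam > 0` the curve `z t = X (t / lam)`, `u t = (1/lam) • W (t / lam)` on `[0, lam T]` goes
from `x` to
`y`; its cost is `lam ∫_0^T (ℓ (X, (1/lam) W) + E) dt`
(`intervalIntegral.integral_comp_div`), so by `dd_le`
`∫_0^T (ℓ (X, W) + E) ≤ lam ∫_0^T (ℓ (X, (1/lam) W) + E)`.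
By `conv_ineq` (at the point `(1/lam) W`, in the direction of `W`):
`ℓ (X, (1/lam) W) ≤ ℓ (X, W) - (1 - 1/lam) ⟪pm ℓ (X, (1/lam) W), W⟫`.  Hence with
`J(lam) = ∫_0^T ⟪pm ℓ (X, (1/lam) W), W⟫` and `I = ∫_0^T (ℓ (X, W) + E)`:
`I ≤ lam I - (lam - 1) J(lam)`, that is `(lam - 1) (I - J(lam)) ≥ 0`.  So `J(lam) ≤ I` for `lam >
1` and
`J(lam) ≥ I` for `lam < 1`; `J` is continuous at `1` (parametric integral of a continuous
function), so `J(1) = I`: `∫_0^T (⟪pm, W⟫ - ℓ - E) = 0`.  The integrand is the constant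
`en ℓ (x, v) - E` (`Sol.en_const`), and `T > 0`.
-/

set_option autoImplicit false

namespace Pool.Agent.DG

open Set Filter Topology MeasureTheory Pool.Agent.MechAlpha Pool.Agent.DF Pool.Agent.LRig
  Pool.Agent.DV Pool.Agent.NOne
open scoped ContDiff RealInnerProductSpace

variable {n : ℕ} {ℓ : Vec n × Vec n → ℝ} {c₀ : Vec n} {E₀ : ℝ}

theorem en_of_free (h : Sys ℓ) (hc : CloR ℓ c₀ E₀) {E : ℝ} (hE : E₀ ≤ E) {x v y : Vec n} {T : ℝ}
    (hT : 0 < T) (hy : (fl ℓ T (x, v)).1 = y) (ha : Ac ℓ T (x, v) + E * T = DD ℓ E x y) :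
    en ℓ (x, v) = E := by
  set X : ℝ → Vec n := fun t => (fl ℓ t (x, v)).1 with hX
  set W : ℝ → Vec n := fun t => (fl ℓ t (x, v)).2 with hW
  have hS : Sol ℓ X W := h.sol (x, v)
  have hXc : Continuous X := hS.cx
  have hWc : Continuous W := hS.cw h.lag
  have hX0 : X 0 = x := by
    simp only [hX]
    rw [fl_zero h.cpl]
  have hW0 : W 0 = v := by
    simp only [hW]
    rw [fl_zero h.cpl]
  have hpc : Continuous (pm ℓ) := h.lag.pm_smooth.continuous
  set I : ℝ := act ℓ X W 0 T + E * T with hI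
  have hID : I = DD ℓ E x y := ha
  set J : ℝ → ℝ := fun c => ∫ t in (0 : ℝ)..T, ⟪pm ℓ (X t, c • W t), W t⟫ with hJ
  have hJc : Continuous J := by
    refine intervalIntegral.continuous_parametric_intervalIntegral_of_continuous' ?_ 0 T
    have h1 : Continuous fun q : ℝ × ℝ => ((X q.2, q.1 • W q.2) : Vec n × Vec n) := by
      fun_prop
    exact (hpc.comp h1).inner (hWc.comp continuous_snd)
  have key : ∀ c : ℝ, 0 < c → (1 - c) * J c ≤ (1 - c) * I := by
    intro c hc0
    have hTc : 0 < T / c := div_pos hT hc0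
    have hcurve : VCv (fun t => X (c * t)) (fun t => c • W (c * t)) 0 (T / c) := by
      have hu : Continuous fun t : ℝ => c • W (c * t) := by fun_prop
      obtain ⟨M, hM⟩ := (isCompact_Icc (a := (0 : ℝ)) (b := T / c)).exists_bound_of_continuousOn
        hu.continuousOn
      refine ⟨hTc.le, ?_, ⟨∅, countable_empty, fun t _ _ => ?_⟩, hu.measurable, ⟨M, hM⟩⟩
      · exact (by fun_prop : Continuous fun t : ℝ => X (c * t)).continuousOn
      · have h1 : HasDerivAt (fun t : ℝ => c * t) (c * 1) t := (hasDerivAt_id t).const_mul c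
        have h2 := (hS.dx (c * t)).scomp t h1
        rw [mul_one] at h2
        exact h2
    have h1 := dd_le h hc hE hTc hcurve
    simp only [mul_zero] at h1
    rw [mul_div_cancel₀ _ hc0.ne', hX0] at h1
    have hXT : X T = y := hy
    rw [hXT, ← hID] at h1
    have h2 : act ℓ (fun t => X (c * t)) (fun t => c • W (c * t)) 0 (T / c) =
        c⁻¹ * ∫ t in (0 : ℝ)..T, ℓ (X t, c • W t) := by
      unfold DV.act
      have h3 := intervalIntegral.integral_comp_mul_left (a := 0) (b := T / c)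
        (fun t => ℓ (X t, c • W t)) hc0.ne'
      rw [mul_zero, mul_div_cancel₀ _ hc0.ne', smul_eq_mul] at h3
      exact h3
    rw [h2] at h1
    have h4 : c * I ≤ (∫ t in (0 : ℝ)..T, ℓ (X t, c • W t)) + E * T := by
      have h5 := mul_le_mul_of_nonneg_left h1 hc0.le
      have h6 : c * (c⁻¹ * (∫ t in (0 : ℝ)..T, ℓ (X t, c • W t)) + E * (T / c)) =
          (∫ t in (0 : ℝ)..T, ℓ (X t, c • W t)) + E * T := by
        field_simp
      rwa [h6] at h5
    -- convexity
    have hc1 : Continuous fun t : ℝ => ℓ (X t, c • W t) := h.cont.comp (by fun_prop)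
    have hc2 : Continuous fun t : ℝ => ℓ (X t, W t) := h.cont.comp (by fun_prop)
    have hc3 : Continuous fun t : ℝ => ⟪pm ℓ (X t, c • W t), W t⟫ :=
      (hpc.comp (by fun_prop)).inner hWc
    have h5 : (∫ t in (0 : ℝ)..T, ℓ (X t, c • W t)) ≤
        act ℓ X W 0 T - (1 - c) * J c := by
      have h6 : act ℓ X W 0 T - (1 - c) * J c =
          ∫ t in (0 : ℝ)..T, (ℓ (X t, W t) - (1 - c) * ⟪pm ℓ (X t, c • W t), W t⟫) := by
        rw [intervalIntegral.integral_sub (hc2.intervalIntegrable _ _)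
          ((hc3.const_mul _).intervalIntegrable _ _), intervalIntegral.integral_const_mul]
        rfl
      rw [h6]
      refine intervalIntegral.integral_mono_on hT.le (hc1.intervalIntegrable _ _)
        ((hc2.sub (hc3.const_mul _)).intervalIntegrable _ _) fun t _ => ?_
      have h7 := conv_ineq h.lag (X t) (c • W t) (W t)
      have h8 : W t - c • W t = (1 - c) • W t := by rw [sub_smul, one_smul]
      rw [h8, inner_smul_right] at h7
      linarith
    have h6 : I = act ℓ X W 0 T + E * T := hI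
    nlinarith
  have hJ1 : J 1 ≤ I := by
    refine le_of_tendsto (hJc.continuousAt.tendsto.mono_left nhdsWithin_le_nhds :
      Tendsto J (𝓝[<] (1 : ℝ)) (𝓝 (J 1))) ?_
    filter_upwards [Ioo_mem_nhdsLT (zero_lt_one : (0 : ℝ) < 1)] with c hc
    exact le_of_mul_le_mul_left (key c hc.1) (by linarith [hc.2])
  have hJ2 : I ≤ J 1 := by
    refine ge_of_tendsto (hJc.continuousAt.tendsto.mono_left nhdsWithin_le_nhds :
      Tendsto J (𝓝[>] (1 : ℝ)) (𝓝 (J 1))) ?_
    filter_upwards [self_mem_nhdsWithin] with c hc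
    have hc' : (1 : ℝ) < c := hc
    have h1 := key c (by linarith)
    nlinarith
  have hJI : J 1 = I := le_antisymm hJ1 hJ2
  have hen : ∀ t, ⟪pm ℓ (X t, (1 : ℝ) • W t), W t⟫ = en ℓ (x, v) + ℓ (X t, W t) := by
    intro t
    have h1 := hS.en_const h.lag t 0
    rw [hX0, hW0] at h1
    rw [one_smul, ← h1]
    unfold en
    ring
  have hc2 : Continuous fun t : ℝ => ℓ (X t, W t) := h.cont.comp (by fun_prop)
  have h1 : J 1 = en ℓ (x, v) * T + act ℓ X W 0 T := by
    simp only [hJ, hen]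
    rw [intervalIntegral.integral_add (continuous_const.intervalIntegrable _ _)
      (hc2.intervalIntegrable _ _), intervalIntegral.integral_const, smul_eq_mul, sub_zero,
      mul_comm T]
    rfl
  have h2 : en ℓ (x, v) * T = E * T := by
    rw [hJI, hI] at h1
    linarith
  exact mul_right_cancel₀ hT.ne' h2

end Pool.Agent.DG
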