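import Pool.Agent.DG.Up
import Pool.Agent.DG.Arc
import Pool.Agent.DG.Ene

/-!
# D2 block V, file DG/Alp: the alpha function: minimum, bridge (any n)

PROOFS.
`alpha_coer`: `C = sup {|ℓ (x, v)| : ‖v‖ ≤ 1}` (`Pr.bdd`); the closed curves `x + t e_i`,
`x - t e_i` on `[0, 1]` (`VCv.line`, class `± e_i`, i.e. `Pi.single i (± 1)`) and `clo_alpha`:
`0 ≤ act - (± c i) + alpha` so `|c i| ≤ C + alpha c`; so `‖c‖ ≤ ∑ |c i| ≤ n (C + alpha c)` (for
`n ≥ 1`; for `n = 0` everything is trivial: `‖c‖ = 0`; state with `n + 1`).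
`exists_min`: `alpha` is continuous (`StrictConvexOn.convexOn`, `ConvexOn.continuous` or
`ConvexOn.continuousOn` with `isOpen_univ` in finite dimension) and coercive (`alpha_coer`), so it
has a minimum: `Continuous.exists_forall_le`, or a compact sublevel.
`bridge`: `E₀ < E`, `CloR ℓ c₀ E₀` for some `c₀`.  If `alpha c ≤ E`: `CloR ℓ c E` (`alpha_iff`), so
every curve from `x` to `x + zv l` has cost `act + E T ≥ ⟪c, zv l⟫`, `le_csInf` (`cst_ne`).
Conversely, if `⟪c, zv l⟫ ≤ DD E x (x + zv l)` for all `x, l`, then for a closed curve `z, u` of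
class `l`: `⟪c, zv l⟫ ≤ DD E (z 0) (z T) ≤ act + E T` (`dd_le`), i.e. `CloR ℓ c E`; `alpha_iff`.
-/

set_option autoImplicit false

namespace Pool.Agent.DG

open Set Filter Topology MeasureTheory Pool.Agent.MechAlpha Pool.Agent.DF Pool.Agent.LRig
  Pool.Agent.DV Pool.Agent.NOne
open scoped ContDiff RealInnerProductSpace

variable {n : ℕ} {L : Torus n → Vec n → UnitAddCircle → ℝ} {φ : ℝ → Phase n → Phase n}

private theorem zvzero : zv (0 : Fin n → ℤ) = 0 := by
  ext i
  change (((0 : Fin n → ℤ) i : ℤ) : ℝ) = 0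
  simp

private theorem zvsingle (i : Fin n) (s : ℤ) :
    zv (Pi.single i s) = EuclideanSpace.single i (s : ℝ) := by
  ext j
  change (((Pi.single i s : Fin n → ℤ) j : ℤ) : ℝ) = _
  rw [EuclideanSpace.single_apply]
  by_cases h : j = i
  · subst h
    simp
  · rw [Pi.single_eq_of_ne h, if_neg h, Int.cast_zero]

/-- the closed curve inequality for a segment of speed at most one -/
private theorem seg_clo (hT : Tonelli L) (hA : Auto L) (hφ : IsELFlow L φ) (hft : FT (lft2 L))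
    {C : ℝ} (hC : ∀ x v : Vec n, ‖v‖ ≤ 1 → ‖lft2 L (x, v)‖ ≤ C) (c : Vec n) (l : Fin n → ℤ)
    (hl : ‖(zv l : Vec n)‖ ≤ 1) : ⟪c, zv l⟫ ≤ C + alpha L φ c := by
  have h1 := clo_alpha hT hA hφ hft c (fun t => 0 + (t - 0) • zv l) (fun _ => zv l) 1 l one_pos
    (VCv.line 0 (zv l) zero_le_one) (by simp)
  have h2 : ‖act (lft2 L) (fun t => 0 + (t - 0) • zv l) (fun _ => zv l) 0 1‖ ≤ C * |1 - 0| :=
    intervalIntegral.norm_integral_le_of_norm_le_const fun t _ => hC _ _ hl
  rw [sub_zero, abs_one, mul_one, Real.norm_eq_abs] at h2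
  have h3 := (abs_le.1 h2).2
  linarith

theorem alpha_coer (hT : Tonelli L) (hA : Auto L) (hφ : IsELFlow L φ) (hft : FT (lft2 L)) :
    ∃ C : ℝ, ∀ c : Vec n, ‖c‖ ≤ (n + 1) * (C + alpha L φ c) := by
  obtain ⟨C, hC0, hC⟩ := (lft2_pr L).bdd (lag_of hT).sm.continuous 1
  refine ⟨C, fun c => ?_⟩
  have h0 : 0 ≤ C + alpha L φ c := by
    have h := seg_clo hT hA hφ hft hC c 0 (by rw [zvzero, norm_zero]; exact zero_le_one)
    rwa [zvzero, inner_zero_right] at h
  have h1 : ∀ i, |c i| ≤ C + alpha L φ c := by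
    intro i
    have hp := seg_clo hT hA hφ hft hC c (Pi.single i 1) (by rw [zvsingle]; simp)
    have hm := seg_clo hT hA hφ hft hC c (Pi.single i (-1)) (by rw [zvsingle]; simp)
    rw [zvsingle, EuclideanSpace.inner_single_right] at hp hm
    simp only [Int.cast_one, Int.cast_neg, conj_trivial, one_mul, neg_mul] at hp hm
    rw [abs_le]
    constructor <;> linarith
  have hn : (0 : ℝ) ≤ n := Nat.cast_nonneg n
  have h2 : ‖c‖ ^ 2 ≤ ((n + 1) * (C + alpha L φ c)) ^ 2 := by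
    rw [EuclideanSpace.norm_sq_eq]
    calc ∑ i, ‖c i‖ ^ 2 ≤ ∑ _i : Fin n, (C + alpha L φ c) ^ 2 := by
          refine Finset.sum_le_sum fun i _ => ?_
          rw [Real.norm_eq_abs]
          exact pow_le_pow_left₀ (abs_nonneg _) (h1 i) 2
      _ = n * (C + alpha L φ c) ^ 2 := by simp
      _ ≤ (n + 1) ^ 2 * (C + alpha L φ c) ^ 2 :=
          mul_le_mul_of_nonneg_right (by nlinarith) (sq_nonneg _)
      _ = _ := by ring
  exact le_of_sq_le_sq h2 (by positivity)

theorem exists_min (hT : Tonelli L) (hA : Auto L) (hφ : IsELFlow L φ) (hft : FT (lft2 L))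
    (hconv : ConvexOn ℝ univ (alpha L φ)) : ∃ c₀ : Vec n, ∀ c, alpha L φ c₀ ≤ alpha L φ c := by
  obtain ⟨C, hC⟩ := alpha_coer hT hA hφ hft
  have hc : Continuous (alpha L φ) := continuousOn_univ.1 (hconv.continuousOn isOpen_univ)
  refine hc.exists_forall_le' 0 ?_
  have hn : (0 : ℝ) < n + 1 := by positivity
  have h1 : (Metric.closedBall (0 : Vec n) ((n + 1) * (C + alpha L φ 0)))ᶜ ∈
      cocompact (Vec n) := (isCompact_closedBall _ _).compl_mem_cocompact
  filter_upwards [h1] with c hc'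
  rw [mem_compl_iff, mem_closedBall_zero_iff, not_le] at hc'
  have h2 := hc'.trans_le (hC c)
  have h3 := lt_of_mul_lt_mul_left h2 hn.le
  linarith

theorem bridge (hT : Tonelli L) (hA : Auto L) (hφ : IsELFlow L φ) (hft : FT (lft2 L))
    {c₀ : Vec n} {E₀ E : ℝ} (hc : CloR (lft2 L) c₀ E₀) (hE : E₀ ≤ E) (c : Vec n) :
    alpha L φ c ≤ E ↔ ∀ (x : Vec n) (l : Fin n → ℤ), ⟪c, zv l⟫ ≤ DD (lft2 L) E x (x + zv l) := by
  have hS := sys_of hT hA hφ
  rw [alpha_iff hT hA hφ hft]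
  constructor
  · intro h x l
    refine le_csInf (cst_ne hS E x _) ?_
    rintro r ⟨T, z, u, hT0, hz, hx, hy, rfl⟩
    have h1 := h z u T l hT0 hz (by rw [hy, hx])
    linarith
  · intro h z u T l hT0 hz hl
    have h1 := h (z 0) l
    rw [← hl] at h1
    have h2 := dd_le hS hc hE hT0 hz
    linarith

end Pool.Agent.DG
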