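import Pool.Agent.DV.Flow
import Pool.Agent.DV.Cor
import Pool.Agent.DF.Fin

/-!
# MP_74f563_an, n = 2 autonomous (D2), block V, file DG/Defs: definitions (any n)

Setting of `DF/Leg`, `DF/Ham`, `DV`: `ℓ : Vec n × Vec n → ℝ` smooth, convex and superlinear in the
velocity (`Lag`), periodic (`Pr`), analytic, with complete flow (`Cpl`, flow `fl ℓ`).  Curves:
`VCv z u a b` (`z` continuous, `z' = u` off a countable set, `u` bounded measurable).

* `FT ℓ`: for every duration `T > 0` and all end points there is a minimal solution (helper11).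
* `CloR ℓ c k`: all closed curves (real durations) satisfy `∫ (ℓ - c·u + k) ≥ 0`.
* `DD ℓ E x y`: the infimum of `∫ (ℓ + E)` over all curves from `x` to `y`, of free duration.
-/

set_option autoImplicit false

namespace Pool.Agent.DG

open Set Filter Topology MeasureTheory Pool.Agent.MechAlpha Pool.Agent.DF Pool.Agent.LRig
  Pool.Agent.DV Pool.Agent.NOne
open scoped ContDiff RealInnerProductSpace

variable {n : ℕ}

/-- the standing hypotheses on the Lagrangian -/
structure Sys (ℓ : Vec n × Vec n → ℝ) : Prop where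
  lag : Lag ℓ
  pr : Pr ℓ
  ana : AnalyticOnNhd ℝ ℓ univ
  cpl : Cpl ℓ

/-- `X` is a solution and is minimal on `[0, T]` among all curves with the same end points and the
same duration -/
def Mini (ℓ : Vec n × Vec n → ℝ) (X W : ℝ → Vec n) (T : ℝ) : Prop :=
  Sol ℓ X W ∧ ∀ z u : ℝ → Vec n, VCv z u 0 T → z 0 = X 0 → z T = X T →
    act ℓ X W 0 T ≤ act ℓ z u 0 T

/-- existence of minimal solutions with fixed duration -/
def FT (ℓ : Vec n × Vec n → ℝ) : Prop :=
  ∀ T : ℝ, 0 < T → ∀ x y : Vec n, ∃ X W : ℝ → Vec n, X 0 = x ∧ X T = y ∧ Mini ℓ X W T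

/-- the closed curve inequality at the level `k` for the class `c`, with real durations -/
def CloR (ℓ : Vec n × Vec n → ℝ) (c : Vec n) (k : ℝ) : Prop :=
  ∀ (z u : ℝ → Vec n) (T : ℝ) (l : Fin n → ℤ), 0 < T → VCv z u 0 T → z T = z 0 + zv l →
    0 ≤ act ℓ z u 0 T - ⟪c, zv l⟫ + k * T

/-- the costs `∫ (ℓ + E)` of the curves from `x` to `y` -/
def Cst (ℓ : Vec n × Vec n → ℝ) (E : ℝ) (x y : Vec n) : Set ℝ :=
  {r | ∃ (T : ℝ) (z u : ℝ → Vec n), 0 < T ∧ VCv z u 0 T ∧ z 0 = x ∧ z T = y ∧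
    r = act ℓ z u 0 T + E * T}

/-- the potential of energy `E` -/
noncomputable def DD (ℓ : Vec n × Vec n → ℝ) (E : ℝ) (x y : Vec n) : ℝ := sInf (Cst ℓ E x y)

/-- the action along the flow -/
noncomputable def Ac (ℓ : Vec n × Vec n → ℝ) (t : ℝ) (z : Vec n × Vec n) : ℝ :=
  act ℓ (fun s => (fl ℓ s z).1) (fun s => (fl ℓ s z).2) 0 t

/-- `(v, T)` is a minimal arc of energy `E` from `x` to `y` -/
def IsArc (ℓ : Vec n × Vec n → ℝ) (E : ℝ) (x v : Vec n) (T : ℝ) (y : Vec n) : Prop :=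
  0 < T ∧ en ℓ (x, v) = E ∧ (fl ℓ T (x, v)).1 = y ∧ Ac ℓ T (x, v) + E * T = DD ℓ E x y

variable {ℓ : Vec n × Vec n → ℝ}

theorem Sys.cont (h : Sys ℓ) : Continuous ℓ := h.lag.sm.continuous

theorem Sys.sol (h : Sys ℓ) (z : Vec n × Vec n) :
    Sol ℓ (fun t => (fl ℓ t z).1) (fun t => (fl ℓ t z).2) := fl_sol h.cpl z

end Pool.Agent.DG
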