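import Pool.Agent.DG.Lin

/-!
# D2 block V, file DG/Dis: the potential `DD` (any n)

PROOFS.  Let `CloR ℓ c₀ E₀`.
`low_clo`: `z, u` a curve on `[0, T]`; `l` with `‖z 0 - z T + zv l‖ ≤ n` (`zv_sub'`); the segment
from
`z T` to `z 0 + zv l` on `[0, 1]` (`line` with `R = n`, `T = 1`, `|act| ≤ C₁`), shifted to `[T, T
+ 1]`
(`vcv_shift0`, `act_shift0`), glued (`VCv.glue`, `act_glue`); `CloR` for the class `l` and the
duration
`T + 1`: `0 ≤ act z u + C₁ - ⟪c₀, zv l⟫ + E₀ (T + 1)`, and `⟪c₀, zv l⟫ ≥ ⟪c₀, z T - z 0⟫ - ‖c₀‖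
n`.
`C = C₁ + ‖c₀‖ n + |E₀|`.
`cst_bdd`: `act + E T = act + E₀ T + (E - E₀) T ≥ ⟪c₀, y - x⟫ - C`.
`cst_ne`: `line` with `T = 1`, `R = ‖y - x‖`.
`dd_le`: `csInf_le`.  `dd_lt`: `exists_lt_of_csInf_lt`.
`dd_low`: `le_csInf` and `low_clo`.
`dd_self`: `≤`: the constant curves (`line` with `R = 0`: cost `≤ (C + |E|) T` for every `T > 0`);
`≥`: `le_csInf`; a closed curve of class `0`: `act + E T ≥ act - ⟪c₀, zv 0⟫ + E₀ T ≥ 0`.
`dd_tri`: two curves, the second one shifted in time (`vcv_shift0`), glued: costs add; `csInf`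
approximation (`dd_lt` with `ε`, or `le_of_forall_pos_le_add`).
`dd_per`: the translate of a curve by `zv l` (`VCv.shift` with `r = 0`, `act_shift`).
`dd_line`: `x ≠ y`: `line` with `R = 1` and `T = ‖y - x‖`; `x = y`: `dd_self`.
`dd_mono`: the same curves.
-/

set_option autoImplicit false

namespace Pool.Agent.DG

open Set Filter Topology MeasureTheory Pool.Agent.MechAlpha Pool.Agent.DF Pool.Agent.LRig
  Pool.Agent.DV Pool.Agent.NOne
open scoped ContDiff RealInnerProductSpace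

variable {n : ℕ} {ℓ : Vec n × Vec n → ℝ} {c₀ : Vec n} {E₀ : ℝ}

private theorem dzv_zero : (zv (0 : Fin n → ℤ) : Vec n) = 0 := by
  ext i
  show (((0 : Fin n → ℤ) i : ℤ) : ℝ) = 0
  simp

private theorem dzv_neg (l : Fin n → ℤ) : (zv (-l) : Vec n) = -zv l := by
  ext i
  show (((-l) i : ℤ) : ℝ) = -((l i : ℤ) : ℝ)
  simp

private theorem cat (h : Sys ℓ) {z u z' u' : ℝ → Vec n} {T T' : ℝ} (hz : VCv z u 0 T)
    (hz' : VCv z' u' 0 T') (e : z T = z' 0) : ∃ z'' u'' : ℝ → Vec n, VCv z'' u'' 0 (T + T') ∧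
      z'' 0 = z 0 ∧ z'' (T + T') = z' T' ∧
      act ℓ z'' u'' 0 (T + T') = act ℓ z u 0 T + act ℓ z' u' 0 T' := by
  have h1 := vcv_shift0 hz' T
  rw [zero_add, add_comm T' T] at h1
  have h2 : z T = z' (T - T) := by rw [sub_self, e]
  have h3 := act_shift0 ℓ z' u' 0 T' T
  rw [zero_add, add_comm T' T] at h3
  refine ⟨_, _, hz.glue h1 h2, ?_, ?_, ?_⟩
  · rw [if_pos hz.le]
  · by_cases h4 : T + T' ≤ T
    · have h5 : T' = 0 := le_antisymm (by linarith) hz'.le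
      rw [if_pos h4, h5, add_zero, e]
    · rw [if_neg h4, add_sub_cancel_left]
  · rw [act_glue h.cont hz h1 h2, h3]

private theorem cst_mem_per (h : Sys ℓ) (E : ℝ) (x y : Vec n) (l : Fin n → ℤ) :
    Cst ℓ E x y ⊆ Cst ℓ E (x + zv l) (y + zv l) := by
  rintro r ⟨T, z, u, hT, hz, hx, hy, rfl⟩
  have h1 := hz.shift 0 (zv l)
  have h2 := act_shift h.pr z u 0 T 0 l
  simp only [sub_zero, add_zero] at h1 h2
  refine ⟨T, _, _, hT, h1, ?_, ?_, ?_⟩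
  · rw [hx]
  · rw [hy]
  · rw [h2]

/-- the lower bound for all curves -/
theorem low_clo (h : Sys ℓ) (hc : CloR ℓ c₀ E₀) : ∃ C : ℝ, 0 ≤ C ∧
    ∀ (z u : ℝ → Vec n) (T : ℝ), 0 ≤ T → VCv z u 0 T →
      ⟪c₀, z T - z 0⟫ - E₀ * T - C ≤ act ℓ z u 0 T := by
  obtain ⟨C₁, hC₁, hline⟩ := line h (n : ℝ)
  refine ⟨C₁ + ‖c₀‖ * n + |E₀|, by positivity, fun z u T hT hz => ?_⟩
  obtain ⟨l, hl⟩ := zv_sub' (z 0 - z T)
  have e0 : (z 0 + zv l) - z T = z 0 - z T + zv l := by abel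
  obtain ⟨w, s, hw, hw0, hw1, hwa⟩ := hline (z T) (z 0 + zv l) 1 one_pos (by
    rw [e0, mul_one]
    exact hl)
  obtain ⟨z'', u'', k1, k2, k3, k4⟩ := cat h hz hw hw0.symm
  have h1 := hc z'' u'' (T + 1) l (by linarith) k1 (by rw [k3, hw1, k2])
  rw [k4] at h1
  have h2 : ⟪c₀, zv l⟫ = ⟪c₀, z T - z 0⟫ + ⟪c₀, z 0 - z T + zv l⟫ := by
    rw [← inner_add_right]
    congr 1
    abel
  have h3 : -(‖c₀‖ * n) ≤ ⟪c₀, z 0 - z T + zv l⟫ := by
    have h4 := abs_real_inner_le_norm c₀ (z 0 - z T + zv l)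
    have h5 := mul_le_mul_of_nonneg_left hl (norm_nonneg c₀)
    have h6 := neg_abs_le ⟪c₀, z 0 - z T + zv l⟫
    linarith
  have h7 := le_abs_self (act ℓ w s 0 1)
  have h8 := le_abs_self E₀
  have h9 : E₀ * (T + 1) = E₀ * T + E₀ := by ring
  rw [h9] at h1
  linarith

theorem cst_bdd (h : Sys ℓ) (hc : CloR ℓ c₀ E₀) {E : ℝ} (hE : E₀ ≤ E) (x y : Vec n) :
    BddBelow (Cst ℓ E x y) := by
  obtain ⟨C, -, hC⟩ := low_clo h hc
  refine ⟨⟪c₀, y - x⟫ - C, ?_⟩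
  rintro r ⟨T, z, u, hT, hz, hx, hy, rfl⟩
  have h1 := hC z u T hT.le hz
  rw [hx, hy] at h1
  have h2 := mul_le_mul_of_nonneg_right hE hT.le
  linarith

theorem cst_ne (h : Sys ℓ) (E : ℝ) (x y : Vec n) : (Cst ℓ E x y).Nonempty := by
  obtain ⟨C, -, hline⟩ := line h ‖y - x‖
  obtain ⟨z, u, h1, h2, h3, -⟩ := hline x y 1 one_pos (by rw [mul_one])
  exact ⟨_, 1, z, u, one_pos, h1, h2, h3, rfl⟩

theorem dd_le (h : Sys ℓ) (hc : CloR ℓ c₀ E₀) {E : ℝ} (hE : E₀ ≤ E) {z u : ℝ → Vec n} {T : ℝ}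
    (hT : 0 < T) (hz : VCv z u 0 T) : DD ℓ E (z 0) (z T) ≤ act ℓ z u 0 T + E * T := by
  exact csInf_le (cst_bdd h hc hE _ _) ⟨T, z, u, hT, hz, rfl, rfl, rfl⟩

theorem dd_lt (h : Sys ℓ) {E r : ℝ} {x y : Vec n} (hr : DD ℓ E x y < r) :
    ∃ (T : ℝ) (z u : ℝ → Vec n), 0 < T ∧ VCv z u 0 T ∧ z 0 = x ∧ z T = y ∧
      act ℓ z u 0 T + E * T < r := by
  obtain ⟨a, ⟨T, z, u, hT, hz, hx, hy, rfl⟩, ha⟩ := exists_lt_of_csInf_lt (cst_ne h E x y) hr
  exact ⟨T, z, u, hT, hz, hx, hy, ha⟩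

theorem dd_self (h : Sys ℓ) (hc : CloR ℓ c₀ E₀) {E : ℝ} (hE : E₀ ≤ E) (x : Vec n) :
    DD ℓ E x x = 0 := by
  refine le_antisymm ?_ ?_
  · obtain ⟨C, hC, hline⟩ := line h 0
    refine le_of_forall_pos_le_add fun ε hε => ?_
    have hp : 0 < C + |E| + 1 := by positivity
    have hT : 0 < ε / (C + |E| + 1) := div_pos hε hp
    obtain ⟨z, u, h1, h2, h3, h4⟩ := hline x x (ε / (C + |E| + 1)) hT (by
      rw [sub_self, norm_zero, zero_mul])
    have h5 := dd_le h hc hE hT h1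
    rw [h2, h3] at h5
    have h6 := (le_abs_self _).trans h4
    have h7 := mul_le_mul_of_nonneg_right (le_abs_self E) hT.le
    have h8 : (C + |E| + 1) * (ε / (C + |E| + 1)) = ε := mul_div_cancel₀ _ hp.ne'
    have h9 : (C + |E| + 1) * (ε / (C + |E| + 1)) = C * (ε / (C + |E| + 1)) +
      |E| * (ε / (C + |E| + 1)) + ε / (C + |E| + 1) := by ring
    linarith
  · refine le_csInf (cst_ne h E x x) ?_
    rintro r ⟨T, z, u, hT, hz, hx, hy, rfl⟩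
    have h1 := hc z u T 0 hT hz (by rw [hx, hy, dzv_zero, add_zero])
    rw [dzv_zero, inner_zero_right, sub_zero] at h1
    have h2 := mul_le_mul_of_nonneg_right hE hT.le
    linarith

theorem dd_tri (h : Sys ℓ) (hc : CloR ℓ c₀ E₀) {E : ℝ} (hE : E₀ ≤ E) (x y z : Vec n) :
    DD ℓ E x z ≤ DD ℓ E x y + DD ℓ E y z := by
  refine le_of_forall_pos_le_add fun ε hε => ?_
  obtain ⟨T, w, u, hT, hw, hx, hy, h1⟩ := dd_lt h
    (show DD ℓ E x y < DD ℓ E x y + ε / 2 by linarith)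
  obtain ⟨T', w', u', hT', hw', hx', hy', h2⟩ := dd_lt h
    (show DD ℓ E y z < DD ℓ E y z + ε / 2 by linarith)
  obtain ⟨w'', u'', k1, k2, k3, k4⟩ := cat h hw hw' (by rw [hy, hx'])
  have h3 := dd_le h hc hE (add_pos hT hT') k1
  rw [k2, k3, k4, hx, hy'] at h3
  have h4 : E * (T + T') = E * T + E * T' := by ring
  rw [h4] at h3
  linarith

theorem dd_per (h : Sys ℓ) (E : ℝ) (x y : Vec n) (l : Fin n → ℤ) :
    DD ℓ E (x + zv l) (y + zv l) = DD ℓ E x y := by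
  have h1 : Cst ℓ E (x + zv l) (y + zv l) = Cst ℓ E x y := by
    refine Subset.antisymm ?_ (cst_mem_per h E x y l)
    have h2 := cst_mem_per h E (x + zv l) (y + zv l) (-l)
    rw [dzv_neg, add_neg_cancel_right, add_neg_cancel_right] at h2
    exact h2
  unfold DD
  rw [h1]

/-- the upper bound by segments of unit speed -/
theorem dd_line (h : Sys ℓ) (hc : CloR ℓ c₀ E₀) : ∃ C : ℝ, 0 ≤ C ∧ ∀ (E : ℝ) (x y : Vec n),
    E₀ ≤ E → DD ℓ E x y ≤ (C + |E|) * ‖y - x‖ := by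
  obtain ⟨C, hC, hline⟩ := line h 1
  refine ⟨C, hC, fun E x y hE => ?_⟩
  by_cases hxy : x = y
  · rw [hxy, dd_self h hc hE, sub_self, norm_zero, mul_zero]
  · have hT : 0 < ‖y - x‖ := norm_pos_iff.2 (sub_ne_zero.2 (Ne.symm hxy))
    obtain ⟨z, u, h1, h2, h3, h4⟩ := hline x y ‖y - x‖ hT (by rw [one_mul])
    have h5 := dd_le h hc hE hT h1
    rw [h2, h3] at h5
    have h6 := (le_abs_self _).trans h4
    have h7 := mul_le_mul_of_nonneg_right (le_abs_self E) hT.le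
    have h8 : (C + |E|) * ‖y - x‖ = C * ‖y - x‖ + |E| * ‖y - x‖ := by ring
    linarith

/-- the action of the flow -/
theorem dd_act (h : Sys ℓ) (hc : CloR ℓ c₀ E₀) {E : ℝ} (hE : E₀ ≤ E) {t : ℝ} (ht : 0 ≤ t)
    (x v : Vec n) : DD ℓ E x (fl ℓ t (x, v)).1 ≤ Ac ℓ t (x, v) + E * t := by
  rcases ht.eq_or_lt with h0 | h0
  · rw [← h0, fl_zero h.cpl, mul_zero, add_zero]
    have h1 : Ac ℓ 0 (x, v) = 0 := act_self ℓ _ _ 0
    rw [h1]
    exact (dd_self h hc hE x).le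
  · have h1 := dd_le h hc hE h0 ((h.sol (x, v)).vcv h.lag h0.le)
    beta_reduce at h1
    rw [fl_zero h.cpl] at h1
    exact h1

/-- rest points have energy at most `E₀` -/
theorem en_rest (h : Sys ℓ) (hc : CloR ℓ c₀ E₀) (x : Vec n) : en ℓ (x, 0) ≤ E₀ := by
  have h1 : VCv (fun _ => x) (fun _ => (0 : Vec n)) 0 1 := by
    have h2 := VCv.line (a := 0) (b := 1) x 0 zero_le_one
    simpa using h2
  have h3 := hc _ _ 1 0 one_pos h1 (by rw [dzv_zero, add_zero])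
  have h4 : act ℓ (fun _ => x) (fun _ => (0 : Vec n)) 0 1 = ℓ (x, 0) := by
    unfold DV.act
    rw [intervalIntegral.integral_const]
    simp
  rw [h4, dzv_zero, inner_zero_right] at h3
  have h5 : en ℓ (x, 0) = -ℓ (x, 0) := by
    unfold DF.en
    rw [inner_zero_right]
    ring
  rw [h5]
  linarith

end Pool.Agent.DG
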