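import Pool.Agent.DG.Defs

/-!
# D2 block V, file DG/Lin: segments, lower bounds, the speed of minimal solutions (any n)

PROOFS.
`line`: `v = (1/T) • (y - x)`, `‖v‖ ≤ R`; the curve `z t = x + (t - 0) • v`, `u = v` (`VCv.line` of
`LRig/VA`); `|ℓ (z, v)| ≤ C` by `Pr.bdd` (`DV/Bas`) and `|∫_0^T| ≤ C T`
(`intervalIntegral.norm_integral_le_of_norm_le_const`).
`sup_low`: `Lag.sup B` gives `R` with `B ‖v‖ ≤ ℓ` for `‖v‖ ≥ R`; for `‖v‖ ≤ R`: `|ℓ| ≤ C` (`Pr.bdd`), so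
`B ‖v‖ - (|B| |R| + C) ≤ -C ≤ ℓ`.
`act_low`: `B ≥ 0`: `act ≥ ∫_0^T (B ‖u‖ - C) ≥ B ‖∫ u‖ - C T = B ‖z T - z 0‖ - C T`
(`intervalIntegral.integral_mono_on`, `VCv.ftc`, `VCv.integrable`, `act_int`,
`intervalIntegral.norm_integral_le_integral_norm`).
`spd`: `act X W ≤ C₁ T` by `line` and minimality; `act ≥ ∫ (‖W‖ - C₂)` by `sup_low 1`; so some
`t₀ ∈ [0, T]` has `‖W t₀‖ ≤ C₁ + C₂` (otherwise the integral of `‖W‖` is larger: continuity of
`W`, `Sol.cw`); so the energy (constant, `Sol.en_const`) is at most `C₃` (`Pr.bdd` for `en`,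
`Pr.en`, `Lag.en_smooth`) and `‖W t‖ ≤ M` for all real `t` by `en_bdd`.
-/

set_option autoImplicit false

namespace Pool.Agent.DG

open Set Filter Topology MeasureTheory Pool.Agent.MechAlpha Pool.Agent.DF Pool.Agent.LRig
  Pool.Agent.DV Pool.Agent.NOne
open scoped ContDiff RealInnerProductSpace

variable {n : ℕ} {ℓ : Vec n × Vec n → ℝ}

/-- segments of speed at most `R` -/
theorem line (h : Sys ℓ) (R : ℝ) : ∃ C : ℝ, 0 ≤ C ∧ ∀ (x y : Vec n) (T : ℝ), 0 < T →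
    ‖y - x‖ ≤ R * T → ∃ z u : ℝ → Vec n, VCv z u 0 T ∧ z 0 = x ∧ z T = y ∧
      |act ℓ z u 0 T| ≤ C * T := by
  obtain ⟨C, hC0, hC⟩ := h.pr.bdd h.cont R
  refine ⟨C, hC0, fun x y T hT hxy => ?_⟩
  have hv : ‖(T⁻¹ • (y - x) : Vec n)‖ ≤ R := by
    rw [norm_smul, norm_inv, Real.norm_of_nonneg hT.le, inv_mul_le_iff₀ hT, mul_comm]
    exact hxy
  refine ⟨fun t => x + (t - 0) • (T⁻¹ • (y - x)), fun _ => T⁻¹ • (y - x),
    VCv.line x _ hT.le, ?_, ?_, ?_⟩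
  · simp
  · change x + (T - 0) • (T⁻¹ • (y - x)) = y
    rw [sub_zero, smul_smul, mul_inv_cancel₀ hT.ne', one_smul, add_sub_cancel]
  · have h1 := intervalIntegral.norm_integral_le_of_norm_le_const (a := 0) (b := T) (C := C)
      (f := fun t : ℝ => ℓ (x + (t - 0) • (T⁻¹ • (y - x)), T⁻¹ • (y - x)))
      (fun t _ => hC _ _ hv)
    rw [sub_zero, abs_of_pos hT] at h1
    exact h1

/-- superlinearity -/
theorem sup_low (h : Sys ℓ) (B : ℝ) : ∃ C : ℝ, 0 ≤ C ∧ ∀ x v : Vec n, B * ‖v‖ - C ≤ ℓ (x, v) := by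
  obtain ⟨R, hR⟩ := h.lag.sup B
  obtain ⟨C, hC0, hC⟩ := h.pr.bdd h.cont R
  refine ⟨C + |B| * |R|, by positivity, fun x v => ?_⟩
  have h0 : 0 ≤ |B| * |R| := by positivity
  rcases le_total R ‖v‖ with h1 | h1
  · have := hR x v h1
    linarith
  · have h2 := hC x v h1
    rw [Real.norm_eq_abs] at h2
    have h3 := (abs_le.1 h2).1
    have h4 : B * ‖v‖ ≤ |B| * |R| := by
      have h5 : B * ‖v‖ ≤ |B| * ‖v‖ := mul_le_mul_of_nonneg_right (le_abs_self B) (norm_nonneg v)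
      have h6 : |B| * ‖v‖ ≤ |B| * |R| :=
        mul_le_mul_of_nonneg_left (h1.trans (le_abs_self R)) (abs_nonneg B)
      exact h5.trans h6
    linarith

/-- superlinearity for curves -/
theorem act_low (h : Sys ℓ) {B : ℝ} (hB : 0 ≤ B) : ∃ C : ℝ, 0 ≤ C ∧ ∀ (z u : ℝ → Vec n) (T : ℝ),
    0 ≤ T → VCv z u 0 T → B * ‖z T - z 0‖ - C * T ≤ act ℓ z u 0 T := by
  obtain ⟨C, hC0, hC⟩ := sup_low h B
  refine ⟨C, hC0, fun z u T hT hz => ?_⟩
  have h1 : IntervalIntegrable (fun t => ‖u t‖) volume 0 T := hz.integrable.norm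
  have h2 : ‖z T - z 0‖ ≤ ∫ t in (0 : ℝ)..T, ‖u t‖ := by
    rw [← hz.ftc]
    exact intervalIntegral.norm_integral_le_integral_norm hz.le
  have h3 : ∫ t in (0 : ℝ)..T, (B * ‖u t‖ - C) ≤ act ℓ z u 0 T :=
    intervalIntegral.integral_mono_on hz.le ((h1.const_mul B).sub
      (continuous_const.intervalIntegrable 0 T)) (act_int h.cont hz) fun t _ => hC _ _
  rw [intervalIntegral.integral_sub (h1.const_mul B) (continuous_const.intervalIntegrable 0 T),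
    intervalIntegral.integral_const_mul, intervalIntegral.integral_const, sub_zero,
    smul_eq_mul] at h3
  have h4 := mul_le_mul_of_nonneg_left h2 hB
  linarith

/-- a solution whose action on `[0, T]` is at most `C T` has bounded speed -/
theorem spd_of_act (h : Sys ℓ) (C : ℝ) : ∃ M : ℝ, 0 ≤ M ∧ ∀ (X W : ℝ → Vec n) (T : ℝ),
    Sol ℓ X W → 0 < T → act ℓ X W 0 T ≤ C * T → ∀ t, ‖W t‖ ≤ M := by
  obtain ⟨C₂, hC₂0, hC₂⟩ := sup_low h 1
  obtain ⟨C₃, hC₃0, hC₃⟩ := h.pr.en.bdd h.lag.en_smooth.continuous (C + C₂ + 1)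
  obtain ⟨M, hM0, hM⟩ := en_bdd h.lag h.pr C₃
  refine ⟨M, hM0.le, fun X W T hS hT hact t => ?_⟩
  obtain ⟨t₀, ht₀⟩ : ∃ t₀, ‖W t₀‖ ≤ C + C₂ + 1 := by
    by_contra hcon
    push Not at hcon
    have hv := hS.vcv h.lag hT.le
    have h3 : ∫ _t in (0 : ℝ)..T, (C + 1) ≤ act ℓ X W 0 T := by
      refine intervalIntegral.integral_mono_on hT.le (continuous_const.intervalIntegrable 0 T)
        (act_int h.cont hv) fun s _ => ?_
      have h4 := hcon s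
      have h5 := hC₂ (X s) (W s)
      linarith
    rw [intervalIntegral.integral_const, sub_zero, smul_eq_mul] at h3
    have h4 : T * (C + 1) = C * T + T := by ring
    linarith
  have h1 := hC₃ (X t₀) (W t₀) ht₀
  rw [Real.norm_eq_abs] at h1
  have h2 := (abs_le.1 h1).2
  refine hM (X t) (W t) ?_
  rw [hS.en_const h.lag t t₀]
  exact h2

/-- the speed of minimal solutions -/
theorem spd (h : Sys ℓ) (R : ℝ) : ∃ M : ℝ, 0 ≤ M ∧ ∀ (X W : ℝ → Vec n) (T : ℝ), Mini ℓ X W T →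
    0 < T → ‖X T - X 0‖ ≤ R * T → ∀ t, ‖W t‖ ≤ M := by
  obtain ⟨C, hC0, hC⟩ := line h R
  obtain ⟨M, hM0, hM⟩ := spd_of_act h C
  refine ⟨M, hM0, fun X W T hmin hT hd => ?_⟩
  obtain ⟨z, u, hz, hz0, hzT, hact⟩ := hC (X 0) (X T) T hT hd
  refine hM X W T hmin.1 hT ?_
  exact (hmin.2 z u hz hz0 hzT).trans ((le_abs_self _).trans hact)

end Pool.Agent.DG
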