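import Pool.Agent.DG.Dis

/-!
# D2 block V, file DG/Lip: continuity of the potential, durations (any n)

PROOFS.  Let `CloR ℓ c₀ E₀`.
`cur_time` (durations of nearly minimal curves): a curve `z, u` from `x` to `y` of duration `T` with
`act + E T ≤ DD ℓ E x y + 1`, `E₁ ≤ E ≤ E₂`, `E₀ < E₁`: by `low_clo`
`act + E T ≥ ⟪c₀, y - x⟫ - C + (E - E₀) T`, and by `dd_line` `DD ≤ (C' + |E|) ‖y - x‖`; so
`(E₁ - E₀) T ≤ (C' + max |E₁| |E₂| + ‖c₀‖) ‖y - x‖ + C + 1`.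
`dd_lipx`: `DD E x' y' ≤ DD E x' x + DD E x y + DD E y y'` (`dd_tri`) and `dd_line`, both ways.
`dd_lipE`: for `E₁ ≤ E ≤ E' ≤ E₂`: `DD E ≤ DD E'` (cost of every curve is larger) and
`DD E' x y ≤ DD E x y + (E' - E) C (1 + ‖y - x‖)`: for every `0 < ε < 1` take a curve with
`act + E T < DD E x y + ε` (`dd_lt`), `T ≤ C (1 + ‖y - x‖)` by `cur_time`, `dd_le` for `E'`.
`dd_cont`: at a point `(E, x, y)` with `E₀ < E` take `E₁ = (E₀ + E)/2`, `E₂ = E + 1`: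
`|DD E' x' y' - DD E x y| ≤ |DD E' x' y' - DD E' x y| + |DD E' x y - DD E x y|`, both tend to `0`.
-/

set_option autoImplicit false

namespace Pool.Agent.DG

open Set Filter Topology MeasureTheory Pool.Agent.MechAlpha Pool.Agent.DF Pool.Agent.LRig
  Pool.Agent.DV Pool.Agent.NOne
open scoped ContDiff RealInnerProductSpace

variable {n : ℕ} {ℓ : Vec n × Vec n → ℝ} {c₀ : Vec n} {E₀ : ℝ}

/-- durations of nearly minimal curves -/
theorem cur_time (h : Sys ℓ) (hc : CloR ℓ c₀ E₀) {E₁ : ℝ} (h1 : E₀ < E₁) (E₂ : ℝ) :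
    ∃ C : ℝ, 0 ≤ C ∧ ∀ (E : ℝ) (z u : ℝ → Vec n) (T : ℝ), E₁ ≤ E → E ≤ E₂ → 0 < T →
      VCv z u 0 T → act ℓ z u 0 T + E * T ≤ DD ℓ E (z 0) (z T) + 1 →
      T ≤ C * (1 + ‖z T - z 0‖) := by
  obtain ⟨C1, hC1, h2⟩ := low_clo h hc
  obtain ⟨C2, hC2, h3⟩ := dd_line h hc
  have hδ : 0 < E₁ - E₀ := by linarith
  have hM : 0 ≤ max |E₁| |E₂| := (abs_nonneg E₁).trans (le_max_left _ _)
  refine ⟨(C2 + max |E₁| |E₂| + ‖c₀‖ + C1 + 1) / (E₁ - E₀), by positivity,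
    fun E z u T hE1 hE2 hT hz ha => ?_⟩
  have h4 := h2 z u T hT.le hz
  have h5 := h3 E (z 0) (z T) (by linarith)
  have h6 : -(‖c₀‖ * ‖z T - z 0‖) ≤ ⟪c₀, z T - z 0⟫ :=
    (abs_le.1 (abs_real_inner_le_norm c₀ (z T - z 0))).1
  have h7 : |E| ≤ max |E₁| |E₂| := by
    rw [abs_le]
    constructor
    · have := neg_abs_le E₁
      linarith [le_max_left |E₁| |E₂|]
    · exact (hE2.trans (le_abs_self E₂)).trans (le_max_right _ _)
  have hN : 0 ≤ ‖z T - z 0‖ := norm_nonneg _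
  have h8 : (C2 + |E|) * ‖z T - z 0‖ ≤ (C2 + max |E₁| |E₂|) * ‖z T - z 0‖ :=
    mul_le_mul_of_nonneg_right (by linarith) hN
  have h9 : (E₁ - E₀) * T ≤ (E - E₀) * T := mul_le_mul_of_nonneg_right (by linarith) hT.le
  have h10 : (E₁ - E₀) * T ≤
      (C2 + max |E₁| |E₂| + ‖c₀‖ + C1 + 1) * (1 + ‖z T - z 0‖) := by
    have h11 : 0 ≤ (C1 + 1) * ‖z T - z 0‖ := by positivity
    have h12 : 0 ≤ ‖c₀‖ := norm_nonneg _
    nlinarith
  rw [div_mul_eq_mul_div, le_div_iff₀ hδ]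
  linarith

theorem dd_lipx (h : Sys ℓ) (hc : CloR ℓ c₀ E₀) (E₂ : ℝ) : ∃ C : ℝ, 0 ≤ C ∧
    ∀ (E : ℝ) (x y x' y' : Vec n), E₀ ≤ E → E ≤ E₂ →
      |DD ℓ E x' y' - DD ℓ E x y| ≤ C * (‖x' - x‖ + ‖y' - y‖) := by
  obtain ⟨C2, hC2, h3⟩ := dd_line h hc
  have hM : 0 ≤ max |E₀| |E₂| := (abs_nonneg E₀).trans (le_max_left _ _)
  refine ⟨C2 + max |E₀| |E₂|, by positivity, fun E x y x' y' hE hE2 => ?_⟩
  have h7 : |E| ≤ max |E₀| |E₂| := by
    rw [abs_le]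
    constructor
    · have := neg_abs_le E₀
      linarith [le_max_left |E₀| |E₂|]
    · exact (hE2.trans (le_abs_self E₂)).trans (le_max_right _ _)
  have key : ∀ a b a' b' : Vec n, DD ℓ E a' b' - DD ℓ E a b ≤
      (C2 + max |E₀| |E₂|) * (‖a' - a‖ + ‖b' - b‖) := by
    intro a b a' b'
    have h4 := dd_tri h hc hE a' a b'
    have h5 := dd_tri h hc hE a b b'
    have h6 := h3 E a' a hE
    have h8 := h3 E b b' hE
    have h9 : (C2 + |E|) * ‖a - a'‖ ≤ (C2 + max |E₀| |E₂|) * ‖a - a'‖ :=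
      mul_le_mul_of_nonneg_right (by linarith) (norm_nonneg _)
    have h10 : (C2 + |E|) * ‖b' - b‖ ≤ (C2 + max |E₀| |E₂|) * ‖b' - b‖ :=
      mul_le_mul_of_nonneg_right (by linarith) (norm_nonneg _)
    rw [norm_sub_rev a' a, mul_add]
    linarith
  rw [abs_le]
  constructor
  · have := key x' y' x y
    rw [norm_sub_rev x x', norm_sub_rev y y'] at this
    linarith
  · exact key x y x' y'

theorem dd_lipE (h : Sys ℓ) (hc : CloR ℓ c₀ E₀) {E₁ : ℝ} (h1 : E₀ < E₁) (E₂ : ℝ) :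
    ∃ C : ℝ, 0 ≤ C ∧ ∀ (E E' : ℝ) (x y : Vec n), E₁ ≤ E → E ≤ E' → E' ≤ E₂ →
      DD ℓ E x y ≤ DD ℓ E' x y ∧ DD ℓ E' x y ≤ DD ℓ E x y + (E' - E) * (C * (1 + ‖y - x‖)) := by
  obtain ⟨C, hC, hT⟩ := cur_time h hc h1 E₂
  refine ⟨C, hC, fun E E' x y hE1 hEE hE2 => ⟨?_, ?_⟩⟩
  · refine le_of_forall_pos_le_add fun ε hε => ?_
    obtain ⟨T, z, u, hT0, hz, rfl, rfl, hr⟩ :=
      dd_lt (E := E') (r := DD ℓ E' x y + ε) h (by linarith)
    have h2 := dd_le (E := E) h hc (by linarith) hT0 hz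
    have h3 : E * T ≤ E' * T := mul_le_mul_of_nonneg_right hEE hT0.le
    linarith
  · refine le_of_forall_pos_le_add fun ε hε => ?_
    have hm : 0 < min ε 1 := lt_min hε one_pos
    obtain ⟨T, z, u, hT0, hz, rfl, rfl, hr⟩ :=
      dd_lt (E := E) (r := DD ℓ E x y + min ε 1) h (by linarith)
    have h2 := dd_le (E := E') h hc (by linarith) hT0 hz
    have h3 := hT E z u T hE1 (hEE.trans hE2) hT0 hz (by linarith [min_le_right ε 1])
    have h4 : (E' - E) * T ≤ (E' - E) * (C * (1 + ‖z T - z 0‖)) :=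
      mul_le_mul_of_nonneg_left h3 (by linarith)
    linarith [min_le_left ε 1]

theorem dd_cont (h : Sys ℓ) (hc : CloR ℓ c₀ E₀) :
    ContinuousOn (fun p : ℝ × Vec n × Vec n => DD ℓ p.1 p.2.1 p.2.2) {p | E₀ < p.1} := by
  rintro ⟨E, x, y⟩ hp
  have hE : E₀ < E := hp
  refine ContinuousAt.continuousWithinAt ?_
  obtain ⟨C, hC, hx⟩ := dd_lipx h hc (E + 1)
  obtain ⟨C', hC', hE'⟩ := dd_lipE (E₁ := (E₀ + E) / 2) h hc (by linarith) (E + 1)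
  have hb : ∀ᶠ p : ℝ × Vec n × Vec n in 𝓝 (E, x, y),
      dist (DD ℓ p.1 p.2.1 p.2.2) (DD ℓ E x y) ≤ C * (‖p.2.1 - x‖ + ‖p.2.2 - y‖) +
        |p.1 - E| * (C' * (1 + ‖y - x‖)) := by
    have h2 : ∀ᶠ p : ℝ × Vec n × Vec n in 𝓝 (E, x, y), p.1 ∈ Ioo ((E₀ + E) / 2) (E + 1) :=
      continuous_fst.continuousAt.eventually (Ioo_mem_nhds (by
        change (E₀ + E) / 2 < E
        linarith) (by
        change E < E + 1
        linarith))
    filter_upwards [h2] with p hp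
    obtain ⟨hp1, hp2⟩ := hp
    have h3 := hx p.1 x y p.2.1 p.2.2 (by linarith) hp2.le
    have h4 : |DD ℓ p.1 x y - DD ℓ E x y| ≤ |p.1 - E| * (C' * (1 + ‖y - x‖)) := by
      rcases le_total E p.1 with h5 | h5
      · obtain ⟨h6, h7⟩ := hE' E p.1 x y (by linarith) h5 hp2.le
        rw [abs_of_nonneg (by linarith), abs_of_nonneg (by linarith)]
        linarith
      · obtain ⟨h6, h7⟩ := hE' p.1 E x y hp1.le h5 (by linarith)
        rw [abs_sub_comm, abs_sub_comm p.1, abs_of_nonneg (by linarith),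
          abs_of_nonneg (by linarith)]
        linarith
    rw [Real.dist_eq]
    calc |DD ℓ p.1 p.2.1 p.2.2 - DD ℓ E x y|
        = |(DD ℓ p.1 p.2.1 p.2.2 - DD ℓ p.1 x y) + (DD ℓ p.1 x y - DD ℓ E x y)| := by
          congr 1
          ring
      _ ≤ _ := (abs_add_le _ _).trans (add_le_add h3 h4)
  rw [ContinuousAt, tendsto_iff_dist_tendsto_zero]
  refine squeeze_zero' (Eventually.of_forall fun p => dist_nonneg) hb ?_
  have hcont : Continuous fun p : ℝ × Vec n × Vec n =>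
      C * (‖p.2.1 - x‖ + ‖p.2.2 - y‖) + |p.1 - E| * (C' * (1 + ‖y - x‖)) := by fun_prop
  have := hcont.tendsto (E, x, y)
  simpa using this

/-- durations of minimal arcs -/
theorem arc_time (h : Sys ℓ) (hc : CloR ℓ c₀ E₀) {E₁ : ℝ} (h1 : E₀ < E₁) (E₂ : ℝ) :
    ∃ C : ℝ, 0 ≤ C ∧ ∀ (E : ℝ) (x v y : Vec n) (T : ℝ), E₁ ≤ E → E ≤ E₂ → IsArc ℓ E x v T y →
      T ≤ C * (1 + ‖y - x‖) := by
  obtain ⟨C, hC, hT⟩ := cur_time h hc h1 E₂
  refine ⟨C, hC, fun E x v y T hE1 hE2 ⟨hT0, he, hy, ha⟩ => ?_⟩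
  have hS := h.sol (x, v)
  have h0 : (fl ℓ 0 (x, v)).1 = x := by rw [fl_zero h.cpl]
  have h2 := hT E (fun t => (fl ℓ t (x, v)).1) (fun t => (fl ℓ t (x, v)).2) T hE1 hE2 hT0
    (hS.vcv h.lag hT0.le) (by
      rw [h0, hy]
      change Ac ℓ T (x, v) + E * T ≤ _
      linarith)
  rw [h0, hy] at h2
  exact h2

end Pool.Agent.DG
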