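import Pool.Agent.DG.Defs
import Pool.Agent.DF.Dyn

/-!
# D2 block V, file DG/Mem: the flow on the torus, the invariant measure of a closed orbit (any n)

`L` is an autonomous Tonelli Lagrangian on `𝕋ⁿ × ℝⁿ × 𝕋`, `φ` its Euler-Lagrange flow,
`ℓ = lft2 L`.

PROOFS.
`sys_of`: `lag_of`, `lft2_pr`, `lft2_ana`, `cpl_of` (`DF/Ham`, `DF/Dyn`).
`flow_sol`: `φ s (proj (X t), W t, τ) = (proj (X (t + s)), W (t + s), τ + s)` for every solution and
every `τ : UnitAddCircle`, `τ = (r : ℝ)` (`QuotientAddGroup.mk_surjective`): by `IsELFlow.orbit` with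
`x = X t`, `v = W t`, time `r` there is `γ` with `IsEL L γ`, `γ r = X t`, `deriv γ r = W t` and the
formula; `sol_of_el` (`DF/Dyn`): `γ, deriv γ` is a `Sol`; by uniqueness (`Sol.uniq` for the shifted
solutions, `Sol.shift0`) `γ (r + s) = X (t + s)`.
`act_mem`: exactly as `action_mem` in `Pool.Agent.MechAlpha.Lower` (product with the Haar measure in the
time variable): `Fact (0 < T)`, `G : AddCircle T × UnitAddCircle → Phase n`,
`G (s, r) = (proj (X s), W s, r)` (`Function.Periodic.lift`; `W (t + T) = W t` by uniqueness of the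
derivative), `φ r (G p) = G (p + (r, r))` by `flow_sol`, `μ = (haar × haar).map G`; the integral of
`F z = L z.1 z.2.1 z.2.2 - ⟪c, z.2.1⟫` is `T⁻¹ ∫_0^T (ℓ (X, W) - ⟪c, W⟫)` (`Auto` removes the time),
and `∫_0^T W = X T - X 0 = zv l`.  `lft2 L (X t, W t) = L (proj (X t)) (W t) 0`.
`bdd_acts`: `L z - ⟪c, v⟫ ≥ -C` (superlinearity `hT.sup (‖c‖ + 1)` and compactness: `Pr.bdd` for
`lft2 L`), as `bdd_actions` in `LRig/VP` and `low_bdd`.
-/

set_option autoImplicit false

namespace Pool.Agent.DG

open Set Filter Topology MeasureTheory Pool.Agent.MechAlpha Pool.Agent.DF Pool.Agent.LRig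
  Pool.Agent.DV Pool.Agent.NOne
open scoped ContDiff RealInnerProductSpace

variable {n : ℕ} {L : Torus n → Vec n → UnitAddCircle → ℝ} {φ : ℝ → Phase n → Phase n}

theorem sys_of (hT : Tonelli L) (hA : Auto L) (hφ : IsELFlow L φ) : Sys (lft2 L) :=
  ⟨lag_of hT, lft2_pr L, lft2_ana hT, cpl_of hT hA hφ⟩

/-- the flow on the torus along a solution -/
theorem flow_sol (hT : Tonelli L) (hA : Auto L) (hφ : IsELFlow L φ) {X W : ℝ → Vec n}
    (hS : Sol (lft2 L) X W) (s t : ℝ) (τ : UnitAddCircle) :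
    φ s (proj (X t), W t, τ) = (proj (X (t + s)), W (t + s), τ + (s : UnitAddCircle)) := by
  obtain ⟨r, rfl⟩ := QuotientAddGroup.mk_surjective τ
  obtain ⟨γ, hγ, h1, h2, h3⟩ := hφ.orbit (X t) (W t) r
  have h4 := Sol.uniq (lag_of hT) (lft2_ana hT) (sol_of_el hT hA hγ) (hS.shift0 (r - t)) (s := r)
    (by rw [h1, sub_sub_cancel]) (by rw [h2, sub_sub_cancel])
  have h5 : r + s - (r - t) = t + s := by ring
  have h6 : γ (r + s) = X (t + s) := by
    have := congrFun h4.1 (r + s)
    rw [this, h5]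
  have h7 : deriv γ (r + s) = W (t + s) := by
    have := congrFun h4.2 (r + s)
    rw [this, h5]
  have h8 := h3 s
  rw [h6, h7, AddCircle.coe_add] at h8
  exact h8

private theorem open_proj : IsOpenQuotientMap (proj (n := n)) := by
  have h1 : IsOpenQuotientMap (Pi.map fun (_ : Fin n) (x : ℝ) => (x : UnitAddCircle)) :=
    IsOpenQuotientMap.piMap fun _ => QuotientAddGroup.isOpenQuotientMap_mk
  exact h1.comp (PiLp.homeomorph 2 (fun _ : Fin n => ℝ)).isOpenQuotientMap

private theorem cont_L (hT : Tonelli L) : Continuous fun z : Phase n => L z.1 z.2.1 z.2.2 := by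
  have h0 : IsOpenQuotientMap fun t : ℝ => (t : UnitAddCircle) :=
    QuotientAddGroup.isOpenQuotientMap_mk
  have h1 : IsOpenQuotientMap (Prod.map (proj (n := n)) (Prod.map (id : Vec n → Vec n)
      fun t : ℝ => (t : UnitAddCircle))) := open_proj.prodMap (IsOpenQuotientMap.id.prodMap h0)
  have h2 : Continuous fun q : Vec n × Vec n × ℝ => L (proj q.1) q.2.1 (q.2.2 : UnitAddCircle) :=
    continuousOn_univ.1 hT.ana.continuousOn
  exact h1.continuous_comp_iff.1 h2

/-- the invariant measure of a closed orbit -/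
theorem act_mem (hT : Tonelli L) (hA : Auto L) (hφ : IsELFlow L φ) {X W : ℝ → Vec n}
    (hS : Sol (lft2 L) X W) {T : ℝ} (hT0 : 0 < T) {l : Fin n → ℤ}
    (hX : ∀ t, X (t + T) = X t + zv l) (c : Vec n) :
    T⁻¹ * (act (lft2 L) X W 0 T - ⟪c, zv l⟫) ∈ actions L φ c := by
  have : Fact (0 < T) := ⟨hT0⟩
  have hXc : Continuous X := hS.cx
  have hWc : Continuous W := hS.cw (lag_of hT)
  have hW : ∀ t, W (t + T) = W t := by
    intro t
    have h1 : HasDerivAt (fun s => X (s + T)) (W (t + T)) t := (hS.dx (t + T)).comp_add_const t T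
    have h2 : HasDerivAt (fun s => X (s + T)) (W t) t := by
      have e : (fun s => X (s + T)) = fun s => X s + zv l := funext hX
      rw [e]
      exact (hS.dx t).add_const _
    exact h1.unique h2
  have hpX : Function.Periodic (fun s => proj (X s)) T := by
    intro s
    change proj (X (s + T)) = proj (X s)
    rw [hX, proj_zv]
  have hpW : Function.Periodic W T := hW
  have hcP : Continuous hpX.lift := by
    rw [← QuotientAddGroup.isOpenQuotientMap_mk.continuous_comp_iff]
    exact continuous_proj.comp hXc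
  have hcQ : Continuous hpW.lift := by
    rw [← QuotientAddGroup.isOpenQuotientMap_mk.continuous_comp_iff]
    exact hWc
  set G : AddCircle T × UnitAddCircle → Phase n := fun p => (hpX.lift p.1, hpW.lift p.1, p.2) with hG
  have hGc : Continuous G := by
    exact (hcP.comp continuous_fst).prodMk ((hcQ.comp continuous_fst).prodMk continuous_snd)
  set ν : Measure (AddCircle T × UnitAddCircle) :=
    (AddCircle.haarAddCircle (T := T)).prod (AddCircle.haarAddCircle (T := (1 : ℝ))) with hν
  -- the flow on the orbit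
  have hflow : ∀ (r : ℝ) (p : AddCircle T × UnitAddCircle),
      φ r (G p) = G (p + ((r : AddCircle T), (r : UnitAddCircle))) := by
    rintro r ⟨s, t₀⟩
    induction s using QuotientAddGroup.induction_on with
    | H s => exact flow_sol hT hA hφ hS r s t₀
  have hφc : ∀ r, Continuous (φ r) := fun r => by
    have := hφ.cont.comp (Continuous.prodMk_right (X := ℝ) (Y := Phase n) r)
    exact this
  refine ⟨ν.map G, ⟨Measure.isProbabilityMeasure_map hGc.aemeasurable, fun r => ?_⟩, ?_⟩
  · rw [Measure.map_map (hφc r).measurable hGc.measurable]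
    have h1 : φ r ∘ G = G ∘ (fun p => p + ((r : AddCircle T), (r : UnitAddCircle))) := by
      funext p
      exact hflow r p
    rw [h1, ← Measure.map_map hGc.measurable (measurable_add_const _), map_add_right_eq_self]
  · set F : Phase n → ℝ := fun z => L z.1 z.2.1 z.2.2 - ⟪c, z.2.1⟫ with hF
    have hFc : Continuous F := by
      have h2 : Continuous fun z : Phase n => z.2.1 := continuous_fst.comp continuous_snd
      exact (cont_L hT).sub (continuous_const.inner h2)
    have hint : Integrable (fun p => F (G p)) ν := by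
      have hc : Continuous fun p => F (G p) := hFc.comp hGc
      exact hc.integrable_of_hasCompactSupport (HasCompactSupport.of_compactSpace _)
    refine ⟨(integrable_map_measure hFc.aestronglyMeasurable hGc.aemeasurable).2 hint, ?_⟩
    rw [integral_map hGc.aemeasurable hFc.aestronglyMeasurable]
    have h0 : ∀ (s : AddCircle T) (r : UnitAddCircle), F (G (s, r)) = F (G (s, 0)) := by
      intro s r
      change L _ _ r - _ = L _ _ 0 - _
      rw [hA _ _ r 0]
    have h1 : ∫ p, F (G p) ∂ν = ∫ s, F (G (s, 0)) ∂(AddCircle.haarAddCircle (T := T)) := by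
      have h2 := integral_fun_fst (μ := AddCircle.haarAddCircle (T := T))
        (ν := AddCircle.haarAddCircle (T := (1 : ℝ))) (fun s => F (G (s, 0)))
      rw [probReal_univ, one_smul] at h2
      rw [← h2]
      refine integral_congr_ae (Eventually.of_forall fun p => ?_)
      exact h0 p.1 p.2
    change _ = ∫ p, F (G p) ∂ν
    rw [h1, AddCircle.integral_haarAddCircle, ← AddCircle.intervalIntegral_preimage T 0,
      zero_add, smul_eq_mul]
    congr 1
    have h3 : ∀ t : ℝ, F (G ((t : AddCircle T), 0)) = lft2 L (X t, W t) - ⟪c, W t⟫ := fun t => rfl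
    have h5 : Continuous fun t => lft2 L (X t, W t) :=
      (lag_of hT).sm.continuous.comp (hXc.prodMk hWc)
    have h6 : Continuous fun t => ⟪c, W t⟫ := continuous_const.inner hWc
    have h7 : ∫ t in (0 : ℝ)..T, ⟪c, W t⟫ = ⟪c, zv l⟫ := by
      have h8 : ∀ t ∈ uIcc (0 : ℝ) T, HasDerivAt (fun t => ⟪c, X t⟫) (⟪c, W t⟫) t := by
        intro t _
        have := (HasDerivAt.inner ℝ (hasDerivAt_const t c) (hS.dx t))
        simpa using this
      rw [intervalIntegral.integral_eq_sub_of_hasDerivAt h8 (h6.intervalIntegrable _ _)]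
      have h9 := hX 0
      rw [zero_add] at h9
      rw [← inner_sub_right, h9, add_sub_cancel_left]
    have h10 : ∫ t in (0 : ℝ)..T, (lft2 L (X t, W t) - ⟪c, W t⟫) =
        (∫ t in (0 : ℝ)..T, lft2 L (X t, W t)) - ∫ t in (0 : ℝ)..T, ⟪c, W t⟫ :=
      intervalIntegral.integral_sub (h5.intervalIntegrable _ _) (h6.intervalIntegrable _ _)
    rw [intervalIntegral.integral_congr (g := fun t => lft2 L (X t, W t) - ⟪c, W t⟫)
      (fun t _ => h3 t), h10, h7]
    rfl

theorem low_all (hT : Tonelli L) (hA : Auto L) (c : Vec n) : ∃ C : ℝ, ∀ z : Phase n,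
    -C ≤ L z.1 z.2.1 z.2.2 - ⟪c, z.2.1⟫ := by
  obtain ⟨R, hR⟩ := hT.sup ‖c‖
  obtain ⟨C, hC0, hC⟩ := (lft2_pr L).bdd (lag_of hT).sm.continuous R
  refine ⟨C + ‖c‖ * |R|, ?_⟩
  rintro ⟨x, v, t⟩
  change -(C + ‖c‖ * |R|) ≤ L x v t - ⟪c, v⟫
  have h1 : ⟪c, v⟫ ≤ ‖c‖ * ‖v‖ := real_inner_le_norm c v
  have h0 : 0 ≤ ‖c‖ * |R| := mul_nonneg (norm_nonneg _) (abs_nonneg _)
  rcases le_total R ‖v‖ with h2 | h2
  · have h3 := hR x v t h2
    linarith
  · obtain ⟨y, rfl⟩ := proj_onto x
    have h3 := hC y v h2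
    rw [Real.norm_eq_abs] at h3
    have h4 : lft2 L (y, v) = L (proj y) v t := hA _ _ _ _
    rw [h4] at h3
    have h5 := (abs_le.1 h3).1
    have h6 : ‖c‖ * ‖v‖ ≤ ‖c‖ * |R| :=
      mul_le_mul_of_nonneg_left (h2.trans (le_abs_self R)) (norm_nonneg _)
    linarith

theorem bdd_acts (hT : Tonelli L) (hA : Auto L) (φ : ℝ → Phase n → Phase n) (c : Vec n) :
    BddBelow (actions L φ c) := by
  obtain ⟨C, hC⟩ := low_all hT hA c
  refine ⟨-C, ?_⟩
  rintro r ⟨μ, ⟨hμ, -⟩, hint, rfl⟩
  have h1 : ∫ _z : Phase n, -C ∂μ ≤ ∫ z, (L z.1 z.2.1 z.2.2 - ⟪c, z.2.1⟫) ∂μ :=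
    integral_mono (integrable_const _) hint fun z => hC z
  rwa [integral_const, probReal_univ, one_smul] at h1

end Pool.Agent.DG
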