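import Pool.Agent.DG.Alp
import Pool.Agent.DA.Defs

/-!
# D2 block V, file DG/Out: the interface `DA.VI` (n = 2)

Coordinates `iso : ℝ × ℝ ≃L[ℝ] Vec 2` (`DF/Dyn`).  All statements are transfers of the results of
`DG` and `DV`; norms: `‖x‖ ≤ ‖iso x‖ ≤ 2 ‖x‖` (`iso_low`, `iso_up`: sup norm and Euclidean norm).
`lv m` is `DB.zz m`, `iso (lv m) = zv (zk m)` (`iso_zz`), and `zk` is onto (`iso_zz'`, every
`l : Fin 2 → ℤ` is `zk (l 0, l 1)`).
-/

set_option autoImplicit false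

namespace Pool.Agent.DG

open Set Filter Topology MeasureTheory Pool.Agent.MechAlpha Pool.Agent.DF Pool.Agent.LRig
  Pool.Agent.DV Pool.Agent.NOne
open scoped ContDiff RealInnerProductSpace

variable {ℓ : Vec 2 × Vec 2 → ℝ} {c₀ : Vec 2} {E₀ : ℝ}

/-- position -/
noncomputable def XX (ℓ : Vec 2 × Vec 2 → ℝ) (t : ℝ) (x v : DA.R2) : DA.R2 :=
  iso.symm (fl ℓ t (iso x, iso v)).1

/-- velocity -/
noncomputable def WW (ℓ : Vec 2 × Vec 2 → ℝ) (t : ℝ) (x v : DA.R2) : DA.R2 :=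
  iso.symm (fl ℓ t (iso x, iso v)).2

/-- action -/
noncomputable def AA (ℓ : Vec 2 × Vec 2 → ℝ) (t : ℝ) (x v : DA.R2) : ℝ := Ac ℓ t (iso x, iso v)

/-- energy -/
noncomputable def ee (ℓ : Vec 2 × Vec 2 → ℝ) (x v : DA.R2) : ℝ := en ℓ (iso x, iso v)

/-- potential -/
noncomputable def DR (ℓ : Vec 2 × Vec 2 → ℝ) (E : ℝ) (x y : DA.R2) : ℝ := DD ℓ E (iso x) (iso y)

theorem iso_lv (m : DA.Z2) : iso (DA.lv m) = zv (zk m) := iso_zz m

theorem iso_low (x : DA.R2) : ‖x‖ ≤ ‖iso x‖ := by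
  rw [Prod.norm_def]
  exact max_le (PiLp.norm_apply_le (iso x) 0) (PiLp.norm_apply_le (iso x) 1)

theorem iso_up (x : DA.R2) : ‖iso x‖ ≤ 2 * ‖x‖ := by
  rw [EuclideanSpace.norm_eq, Fin.sum_univ_two]
  have h0 : ‖iso x 0‖ ≤ ‖x‖ := by
    rw [iso_zero]
    exact norm_fst_le x
  have h1 : ‖iso x 1‖ ≤ ‖x‖ := by
    rw [iso_one]
    exact norm_snd_le x
  rw [Real.sqrt_le_left (by positivity)]
  have h2 : ‖iso x 0‖ ^ 2 ≤ ‖x‖ ^ 2 := pow_le_pow_left₀ (norm_nonneg _) h0 2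
  have h3 : ‖iso x 1‖ ^ 2 ≤ ‖x‖ ^ 2 := pow_le_pow_left₀ (norm_nonneg _) h1 2
  nlinarith [sq_nonneg ‖x‖]

theorem iso_dt (c x : DA.R2) : ⟪iso c, iso x⟫ = DA.dt c x := by
  rw [PiLp.inner_apply, Fin.sum_univ_two, iso_zero, iso_one, iso_zero, iso_one]
  simp only [RCLike.inner_apply, conj_trivial]
  unfold DA.dt
  ring

private theorem pr_xw (ℓ : Vec 2 × Vec 2 → ℝ) (t : ℝ) (x v : DA.R2) :
    (iso (XX ℓ t x v), iso (WW ℓ t x v)) = fl ℓ t (iso x, iso v) := by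
  unfold XX WW
  rw [ContinuousLinearEquiv.apply_symm_apply, ContinuousLinearEquiv.apply_symm_apply]

private theorem iso_xx (ℓ : Vec 2 × Vec 2 → ℝ) (t : ℝ) (x v : DA.R2) :
    iso (XX ℓ t x v) = (fl ℓ t (iso x, iso v)).1 := by
  unfold XX
  rw [ContinuousLinearEquiv.apply_symm_apply]

private theorem iso_ww (ℓ : Vec 2 × Vec 2 → ℝ) (t : ℝ) (x v : DA.R2) :
    iso (WW ℓ t x v) = (fl ℓ t (iso x, iso v)).2 := by
  unfold WW
  rw [ContinuousLinearEquiv.apply_symm_apply]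

private theorem fl_ct (h : Sys ℓ) : Continuous fun p : ℝ × Vec 2 × Vec 2 => fl ℓ p.1 p.2 :=
  fl_cont h

private theorem ac_int (h : Sys ℓ) (z : Vec 2 × Vec 2) :
    Continuous fun s : ℝ => ℓ (fl ℓ s z) := by
  have h1 : Continuous fun s : ℝ => ((s, z) : ℝ × Vec 2 × Vec 2) :=
    continuous_id.prodMk continuous_const
  exact h.cont.comp ((fl_ct h).comp h1)

private theorem ac_eq (ℓ : Vec 2 × Vec 2 → ℝ) (t : ℝ) (z : Vec 2 × Vec 2) :
    Ac ℓ t z = ∫ s in (0 : ℝ)..t, ℓ (fl ℓ s z) := rfl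

private theorem ac_add (h : Sys ℓ) (s t : ℝ) (z : Vec 2 × Vec 2) :
    Ac ℓ (s + t) z = Ac ℓ s z + Ac ℓ t (fl ℓ s z) := by
  rw [ac_eq, ac_eq, ac_eq]
  have hc := ac_int h z
  rw [← intervalIntegral.integral_add_adjacent_intervals (hc.intervalIntegrable 0 s)
    (hc.intervalIntegrable s (s + t))]
  congr 1
  have h3 := intervalIntegral.integral_comp_add_right (a := 0) (b := t)
    (fun r => ℓ (fl ℓ r z)) s
  rw [zero_add, add_comm t s] at h3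
  rw [← h3]
  refine intervalIntegral.integral_congr fun r _ => ?_
  rw [fl_add h.lag h.ana h.cpl]

private theorem ac_per (h : Sys ℓ) (t : ℝ) (x v : Vec 2) (l : Fin 2 → ℤ) :
    Ac ℓ t (x + zv l, v) = Ac ℓ t (x, v) := by
  rw [ac_eq, ac_eq]
  refine intervalIntegral.integral_congr fun r _ => ?_
  have h1 := fl_per h.lag h.pr h.ana h.cpl r (x, v) l
  rw [h1]
  exact h.pr _ _ _

theorem XX_flow (h : Sys ℓ) : (∀ x v, XX ℓ 0 x v = x) ∧ (∀ x v, WW ℓ 0 x v = v) ∧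
    (∀ x v, AA ℓ 0 x v = 0) ∧
    (∀ s t x v, XX ℓ (s + t) x v = XX ℓ t (XX ℓ s x v) (WW ℓ s x v)) ∧
    (∀ s t x v, WW ℓ (s + t) x v = WW ℓ t (XX ℓ s x v) (WW ℓ s x v)) ∧
    (∀ s t x v, AA ℓ (s + t) x v = AA ℓ s x v + AA ℓ t (XX ℓ s x v) (WW ℓ s x v)) ∧
    ∀ t x v, HasDerivAt (fun s => XX ℓ s x v) (WW ℓ t x v) t := by
  have hadd : ∀ s t (x v : DA.R2), fl ℓ (s + t) (iso x, iso v) =
      fl ℓ t (iso (XX ℓ s x v), iso (WW ℓ s x v)) := by
    intro s t x v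
    rw [pr_xw, add_comm, fl_add h.lag h.ana h.cpl]
  refine ⟨fun x v => ?_, fun x v => ?_, fun x v => ?_, fun s t x v => ?_, fun s t x v => ?_,
    fun s t x v => ?_, fun t x v => ?_⟩
  · unfold XX
    rw [fl_zero h.cpl, ContinuousLinearEquiv.symm_apply_apply]
  · unfold WW
    rw [fl_zero h.cpl, ContinuousLinearEquiv.symm_apply_apply]
  · exact act_self _ _ _ _
  · apply iso.injective
    rw [iso_xx, iso_xx, hadd]
  · apply iso.injective
    rw [iso_ww, iso_ww, hadd]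
  · unfold AA
    rw [ac_add h, ← pr_xw]
  · have h1 := (h.sol (iso x, iso v)).dx t
    exact (iso.symm : Vec 2 →L[ℝ] DA.R2).hasFDerivAt.comp_hasDerivAt t h1

theorem XX_per (h : Sys ℓ) : (∀ t x v (m : DA.Z2), XX ℓ t (x + DA.lv m) v = XX ℓ t x v + DA.lv m) ∧
    (∀ t x v (m : DA.Z2), WW ℓ t (x + DA.lv m) v = WW ℓ t x v) ∧
    (∀ t x v (m : DA.Z2), AA ℓ t (x + DA.lv m) v = AA ℓ t x v) ∧
    (∀ x v (m : DA.Z2), ee ℓ (x + DA.lv m) v = ee ℓ x v) := by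
  have hs : ∀ (x : DA.R2) (m : DA.Z2), iso (x + DA.lv m) = iso x + zv (zk m) := by
    intro x m
    rw [map_add, iso_lv]
  have hf : ∀ t (x v : DA.R2) (m : DA.Z2), fl ℓ t (iso (x + DA.lv m), iso v) =
      ((fl ℓ t (iso x, iso v)).1 + zv (zk m), (fl ℓ t (iso x, iso v)).2) := by
    intro t x v m
    rw [hs]
    exact fl_per h.lag h.pr h.ana h.cpl t (iso x, iso v) (zk m)
  refine ⟨fun t x v m => ?_, fun t x v m => ?_, fun t x v m => ?_, fun x v m => ?_⟩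
  · apply iso.injective
    rw [iso_xx, hf, hs, iso_xx]
  · apply iso.injective
    rw [iso_ww, hf, iso_ww]
  · unfold AA
    rw [hs, ac_per h]
  · unfold ee
    rw [hs]
    exact h.pr.en _ _ _

theorem XX_cont (h : Sys ℓ) : (Continuous fun p : ℝ × DA.R2 × DA.R2 => XX ℓ p.1 p.2.1 p.2.2) ∧
    (Continuous fun p : ℝ × DA.R2 × DA.R2 => WW ℓ p.1 p.2.1 p.2.2) ∧
    (Continuous fun p : ℝ × DA.R2 × DA.R2 => AA ℓ p.1 p.2.1 p.2.2) ∧
    Continuous fun p : DA.R2 × DA.R2 => ee ℓ p.1 p.2 := by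
  have h1 : Continuous fun p : ℝ × DA.R2 × DA.R2 =>
      ((p.1, iso p.2.1, iso p.2.2) : ℝ × Vec 2 × Vec 2) :=
    continuous_fst.prodMk ((iso.continuous.comp (continuous_fst.comp continuous_snd)).prodMk
      (iso.continuous.comp (continuous_snd.comp continuous_snd)))
  have h2 : Continuous fun p : ℝ × DA.R2 × DA.R2 => fl ℓ p.1 (iso p.2.1, iso p.2.2) :=
    (fl_ct h).comp h1
  refine ⟨iso.symm.continuous.comp (continuous_fst.comp h2),
    iso.symm.continuous.comp (continuous_snd.comp h2), (ac_cont h).comp h1, ?_⟩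
  have h3 : Continuous fun p : DA.R2 × DA.R2 => ((iso p.1, iso p.2) : Vec 2 × Vec 2) :=
    (iso.continuous.comp continuous_fst).prodMk (iso.continuous.comp continuous_snd)
  exact h.lag.en_smooth.continuous.comp h3

theorem ee_prop (h : Sys ℓ) : (∀ t x v, ee ℓ (XX ℓ t x v) (WW ℓ t x v) = ee ℓ x v) ∧
    (∀ x v, v ≠ 0 → StrictMonoOn (fun s : ℝ => ee ℓ x (s • v)) (Ici 0)) ∧
    ∀ R, ∃ C, ∀ x v, ee ℓ x v ≤ R → ‖v‖ ≤ C := by
  refine ⟨fun t x v => ?_, fun x v hv => ?_, fun R => ?_⟩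
  · unfold ee
    rw [pr_xw]
    have h1 := (h.sol (iso x, iso v)).en_const h.lag t 0
    have h2 : en ℓ (fl ℓ t (iso x, iso v)) = en ℓ (fl ℓ 0 (iso x, iso v)) := h1
    rw [h2, fl_zero h.cpl]
  · have hv' : iso v ≠ 0 := by
      intro h0
      apply hv
      apply iso.injective
      rw [h0, map_zero]
    have h1 := en_mono h.lag (iso x) hv'
    have e : (fun s : ℝ => ee ℓ x (s • v)) = fun s : ℝ => en ℓ (iso x, s • iso v) := by
      funext s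
      unfold ee
      rw [map_smul]
    rw [e]
    exact h1
  · obtain ⟨Ω, _, hΩ⟩ := en_bdd h.lag h.pr R
    exact ⟨Ω, fun x v he => (iso_low v).trans (hΩ (iso x) (iso v) he)⟩

theorem DR_prop (h : Sys ℓ) (hc : CloR ℓ c₀ E₀) : (∀ x, ee ℓ x 0 ≤ E₀) ∧
    (∀ E, E₀ < E → ∀ x, DR ℓ E x x = 0) ∧
    (∀ E, E₀ < E → ∀ x y z, DR ℓ E x z ≤ DR ℓ E x y + DR ℓ E y z) ∧
    (∀ E, E₀ < E → ∀ x y (m : DA.Z2), DR ℓ E (x + DA.lv m) (y + DA.lv m) = DR ℓ E x y) ∧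
    ContinuousOn (fun p : ℝ × DA.R2 × DA.R2 => DR ℓ p.1 p.2.1 p.2.2) {p | E₀ < p.1} ∧
    ∀ E, E₀ < E → ∀ t x v, 0 ≤ t → DR ℓ E x (XX ℓ t x v) ≤ AA ℓ t x v + E * t := by
  refine ⟨fun x => ?_, fun E hE x => dd_self h hc hE.le _,
    fun E hE x y z => dd_tri h hc hE.le _ _ _, fun E hE x y m => ?_, ?_, fun E hE t x v ht => ?_⟩
  · have h1 := en_rest h hc (iso x)
    unfold ee
    rw [map_zero]
    exact h1
  · have h1 := dd_per h E (iso x) (iso y) (zk m)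
    unfold DR
    rw [map_add, map_add, iso_lv]
    exact h1
  · have h1 : Continuous fun p : ℝ × DA.R2 × DA.R2 =>
        ((p.1, iso p.2.1, iso p.2.2) : ℝ × Vec 2 × Vec 2) :=
      continuous_fst.prodMk ((iso.continuous.comp (continuous_fst.comp continuous_snd)).prodMk
        (iso.continuous.comp (continuous_snd.comp continuous_snd)))
    have h2 : MapsTo (fun p : ℝ × DA.R2 × DA.R2 =>
        ((p.1, iso p.2.1, iso p.2.2) : ℝ × Vec 2 × Vec 2)) {p | E₀ < p.1} {p | E₀ < p.1} :=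
      fun p hp => hp
    have h3 := ContinuousOn.comp (dd_cont h hc) h1.continuousOn h2
    exact h3
  · unfold DR
    rw [iso_xx]
    exact dd_act h hc hE.le ht (iso x) (iso v)

theorem DR_ex (h : Sys ℓ) (hft : FT ℓ) (hc : CloR ℓ c₀ E₀) : ∀ E, E₀ < E → ∀ x y, x ≠ y →
    ∃ v t, 0 < t ∧ ee ℓ x v = E ∧ XX ℓ t x v = y ∧ AA ℓ t x v + E * t = DR ℓ E x y := by
  intro E hE x y hxy
  have hxy' : iso x ≠ iso y := fun h0 => hxy (iso.injective h0)
  obtain ⟨v, T, hT, hy, ha⟩ := exists_free h hft hc hE hxy'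
  have he := en_of_free h hc hE.le hT hy ha
  have e1 : iso (iso.symm v) = v := iso.apply_symm_apply v
  refine ⟨iso.symm v, T, hT, ?_, ?_, ?_⟩
  · unfold ee
    rw [e1, he]
  · apply iso.injective
    rw [iso_xx, e1, hy]
  · unfold AA DR
    rw [e1, ha]

theorem DR_time (h : Sys ℓ) (hc : CloR ℓ c₀ E₀) : ∀ E1 E2, E₀ < E1 → ∃ C, ∀ E x y v t, E1 ≤ E →
    E ≤ E2 → 0 < t → ee ℓ x v = E → XX ℓ t x v = y → AA ℓ t x v + E * t = DR ℓ E x y →
    t ≤ C * (1 + ‖y - x‖) := by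
  intro E1 E2 h1
  obtain ⟨C, hC, hT⟩ := arc_time h hc h1 E2
  refine ⟨2 * C, fun E x y v t hE1 hE2 ht he hy ha => ?_⟩
  have h2 : IsArc ℓ E (iso x) (iso v) t (iso y) := by
    refine ⟨ht, he, ?_, ha⟩
    rw [← iso_xx, hy]
  have h3 := hT E (iso x) (iso v) (iso y) t hE1 hE2 h2
  have h4 : ‖iso y - iso x‖ ≤ 2 * ‖y - x‖ := by
    rw [← map_sub]
    exact iso_up _
  have h5 : C * (1 + ‖iso y - iso x‖) ≤ C * (1 + 2 * ‖y - x‖) :=
    mul_le_mul_of_nonneg_left (by linarith) hC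
  nlinarith [norm_nonneg (y - x)]

theorem DR_corner (h : Sys ℓ) (hc : CloR ℓ c₀ E₀) : ∀ τ R, 0 < τ → ∃ κ > 0, ∀ s t x v w E,
    τ ≤ s → τ ≤ t → ee ℓ x v ≤ R → ee ℓ (XX ℓ t x v) w ≤ R → E₀ < E →
    DR ℓ E x (XX ℓ s (XX ℓ t x v) w) ≤ AA ℓ t x v + AA ℓ s (XX ℓ t x v) w + E * (t + s) -
      κ * ‖WW ℓ t x v - w‖ ^ 2 := by
  intro τ R hτ
  obtain ⟨κ, hκ, hcor⟩ := corner h.lag h.pr hτ R
  refine ⟨κ, hκ, fun s t x v w E hs ht he he' hE => ?_⟩
  have z0 : fl ℓ 0 (iso x, iso v) = (iso x, iso v) := fl_zero h.cpl _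
  have z1 : fl ℓ 0 (iso (XX ℓ t x v), iso w) = (iso (XX ℓ t x v), iso w) := fl_zero h.cpl _
  obtain ⟨z, u, hz, hz0, hz1, hza⟩ := hcor (fun r => (fl ℓ r (iso x, iso v)).1)
    (fun r => (fl ℓ r (iso x, iso v)).2) (fun r => (fl ℓ r (iso (XX ℓ t x v), iso w)).1)
    (fun r => (fl ℓ r (iso (XX ℓ t x v), iso w)).2) (h.sol _) (h.sol _) s t hs ht
    (by rw [z0]; exact he) (by rw [z1]; exact he') (by rw [z1]; exact iso_xx ℓ t x v)
  rw [z0] at hz0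
  rw [z1] at hza
  have h1 := dd_le h hc hE.le (by linarith : 0 < t + s) hz
  rw [hz0, hz1] at h1
  have h2 : DR ℓ E x (XX ℓ s (XX ℓ t x v) w) ≤ act ℓ z u 0 (t + s) + E * (t + s) := by
    unfold DR
    rw [iso_xx ℓ s]
    exact h1
  have h3 : act ℓ z u 0 (t + s) ≤ AA ℓ t x v + AA ℓ s (XX ℓ t x v) w -
      κ * ‖(fl ℓ t (iso x, iso v)).2 - iso w‖ ^ 2 := hza
  have h4 : ‖WW ℓ t x v - w‖ ≤ ‖(fl ℓ t (iso x, iso v)).2 - iso w‖ := by
    rw [← iso_ww, ← map_sub]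
    exact iso_low _
  have h5 : ‖WW ℓ t x v - w‖ ^ 2 ≤ ‖(fl ℓ t (iso x, iso v)).2 - iso w‖ ^ 2 :=
    pow_le_pow_left₀ (norm_nonneg _) h4 2
  have h6 := mul_le_mul_of_nonneg_left h5 hκ.le
  linarith

variable {L : Torus 2 → Vec 2 → UnitAddCircle → ℝ} {φ : ℝ → Phase 2 → Phase 2}

/-- the alpha function in the coordinates of the plane -/
noncomputable def aR (L : Torus 2 → Vec 2 → UnitAddCircle → ℝ) (φ : ℝ → Phase 2 → Phase 2)
    (c : DA.R2) : ℝ := alpha L φ (iso c)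

theorem aR_bridge (hT : Tonelli L) (hA : Auto L) (hφ : IsELFlow L φ) (hft : FT (lft2 L))
    (hc : CloR (lft2 L) c₀ E₀) : ∀ E, E₀ < E → ∀ c, aR L φ c ≤ E ↔
      ∀ x (m : DA.Z2), DA.dt c (DA.lv m) ≤ DR (lft2 L) E x (x + DA.lv m) := by
  intro E hE c
  have h1 := bridge hT hA hφ hft hc hE.le (iso c)
  unfold aR
  rw [h1]
  constructor
  · intro h2 x m
    have h3 := h2 (iso x) (zk m)
    rw [← iso_dt, iso_lv]
    unfold DR
    rw [map_add, iso_lv]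
    exact h3
  · intro h2 x l
    have h3 := h2 (iso.symm x) (l 0, l 1)
    have e : iso (DA.lv (l 0, l 1)) = zv l := iso_zz' l
    rw [← iso_dt, e] at h3
    unfold DR at h3
    rw [map_add, e, ContinuousLinearEquiv.apply_symm_apply] at h3
    exact h3

theorem aR_convex (hsc : StrictConvexOn ℝ univ (alpha L φ)) :
    StrictConvexOn ℝ univ (aR L φ) := by
  refine ⟨convex_univ, fun x _ y _ hxy a b ha hb hab => ?_⟩
  have hxy' : iso x ≠ iso y := fun h0 => hxy (iso.injective h0)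
  have h1 := hsc.2 (mem_univ (iso x)) (mem_univ (iso y)) hxy' ha hb hab
  unfold aR
  rw [map_add, map_smul, map_smul]
  exact h1

/-- The variational interface of an autonomous Tonelli Lagrangian on the two-torus whose alpha
function is strictly convex. -/
theorem exists_vi (hT : Tonelli L) (hA : Auto L) (hφ : IsELFlow L φ) (hft : FT (lft2 L))
    (hsc : StrictConvexOn ℝ univ (alpha L φ)) : ∃ P : DA.VI, P.X = XX (lft2 L) ∧
      P.W = WW (lft2 L) ∧ P.A = AA (lft2 L) ∧ P.e = ee (lft2 L) ∧ P.D = DR (lft2 L) ∧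
      P.al = aR L φ := by
  have h := sys_of hT hA hφ
  obtain ⟨c₀, hc₀⟩ := exists_min hT hA hφ hft hsc.convexOn
  have hc := clo_alpha hT hA hφ hft c₀
  obtain ⟨f1, f2, f3, f4, f5, f6, f7⟩ := XX_flow h
  obtain ⟨p1, p2, p3, p4⟩ := XX_per h
  obtain ⟨k1, k2, k3, k4⟩ := XX_cont h
  obtain ⟨e1, e2, e3⟩ := ee_prop h
  obtain ⟨d1, d2, d3, d4, d5, d6⟩ := DR_prop h hc
  refine ⟨{
    X := XX (lft2 L)
    W := WW (lft2 L)
    A := AA (lft2 L)
    e := ee (lft2 L)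
    D := DR (lft2 L)
    al := aR L φ
    E0 := alpha L φ c₀
    X0 := f1, W0 := f2, A0 := f3, Xadd := f4, Wadd := f5, Aadd := f6, Xder := f7
    Xper := p1, Wper := p2, Aper := p3, eper := p4
    Xcont := k1, Wcont := k2, Acont := k3, econt := k4
    econs := e1, eray := e2, ebd := e3
    e0 := d1, Dself := d2, Dtri := d3, Dper := d4, Dcont := d5, Dact := d6
    Dex := DR_ex h hft hc
    Dtime := DR_time h hc
    corner := DR_corner h hc
    bridge := aR_bridge hT hA hφ hft hc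
    alsc := aR_convex hsc
    almin := ⟨iso.symm c₀, ?_⟩
    alge := fun c => hc₀ (iso c) }, rfl, rfl, rfl, rfl, rfl, rfl⟩
  change alpha L φ (iso (iso.symm c₀)) = _
  rw [ContinuousLinearEquiv.apply_symm_apply]

end Pool.Agent.DG
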