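import Pool.Agent.DG.Lin

/-!
# D2 block V, file DG/Per: periodic minimal solutions (any n)

PROOF of `exists_per`.  For `x : Vec n` let `f x` be the action of the minimal solution from `x` to
`x + zv l` in time `T` given by `FT` (`choose`).
* `‖zv l‖ ≤ R T` with `R = ‖zv l‖ / T`: `spd` gives the bound `M` of the speeds of all of them.
* `f (x + zv m) = f x`: by minimality and periodicity (`act_shift` with `r = 0`, `vcv` shifted).
* `f x' ≤ f x + C ‖x' - x‖ T`: the curve `X + (x' - x)` with the velocity `W` is a curve from `x'` to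
  `x' + zv l`; `|ℓ (a, w) - ℓ (b, w)| ≤ C ‖a - b‖` for `‖w‖ ≤ M` (`Pr.lip` of `DV/Bas`).
  So `f` is continuous (Lipschitz).
* So `f` has a minimum on the closed ball of radius `n` around `0`, which is a global minimum by
  periodicity and `zv_sub'` (`DV/Bas`); say at `x₀`, with minimal solution `X, W`.
* Momenta match: for `w : Vec n` and `ε ∈ [0, 1]` (scaled so that `‖ε w‖ ≤ 1`) the curve `X + ε w` is
  a curve from `x₀ + ε w` to `x₀ + ε w + zv l`, so its action is `≥ f (x₀ + ε w) ≥ f x₀`; by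
  `first_var` (`DV/Var`, `lam = ε w` constant, `mu = 0`, `δ = ε ‖w‖`):
  `0 ≤ ε ⟪pm (X T, W T) - pm (X 0, W 0), w⟫ + C ε² ‖w‖² T`.  Divide by `ε` and let `ε → 0`
  for `w = -(pm (X T, W T) - pm (X 0, W 0))`: the momenta are equal.  As `X T = X 0 + zv l`, `Pr.pm`
  and injectivity of the momentum (`Lag.lam_inj`): `W T = W 0`.
* Uniqueness: `t ↦ X (t + T) - zv l`, `W (t + T)` is a solution (`Sol.shift` with `r = -T` and
  `-l`: `zv (-l) = - zv l`) with the same data at time `0`, so it is equal to `X, W` (`Sol.uniq`,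
  `DV/Flow`).
* Minimality among all curves with `z T = z 0 + zv l`: `act z u ≥ f (z 0) ≥ f x₀`.
-/

set_option autoImplicit false

namespace Pool.Agent.DG

open Set Filter Topology MeasureTheory Pool.Agent.MechAlpha Pool.Agent.DF Pool.Agent.LRig
  Pool.Agent.DV Pool.Agent.NOne
open scoped ContDiff RealInnerProductSpace

variable {n : ℕ} {ℓ : Vec n × Vec n → ℝ}

private theorem per_zv_neg (m : Fin n → ℤ) : (zv (-m) : Vec n) = -zv m := by
  ext i
  simp [zv]

private theorem per_const (w : Vec n) (t : ℝ) :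
    HasDerivAt (fun _ : ℝ => w) ((fun _ : ℝ => (0 : Vec n)) t) t := hasDerivAt_const t w

/-- the translated minimal solution is a curve, its action changes in a Lipschitz way -/
private theorem per_lip (h : Sys ℓ) (M : ℝ) : ∃ C : ℝ, 0 ≤ C ∧ ∀ (X W : ℝ → Vec n) (T : ℝ),
    Sol ℓ X W → 0 < T → (∀ t, ‖W t‖ ≤ M) → ∀ w : Vec n,
    act ℓ (fun t => X t + w) (fun t => W t + 0) 0 T ≤ act ℓ X W 0 T + C * ‖w‖ * T := by
  obtain ⟨C, hC0, hC⟩ := h.pr.lip (h.lag.sm.of_le (by
    have : (1 : WithTop ℕ∞) = ((1 : ℕ∞) : WithTop ℕ∞) := rfl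
    rw [this]
    exact WithTop.coe_le_coe.2 le_top)) M
  refine ⟨C, hC0, fun X W T hS hT hW w => ?_⟩
  have hXc := hS.cx
  have hWc := hS.cw h.lag
  have c1 : Continuous fun t => ℓ (X t + w, W t + 0) :=
    h.cont.comp ((hXc.add continuous_const).prodMk (hWc.add continuous_const))
  have c2 : Continuous fun t => ℓ (X t, W t) := h.cont.comp (hXc.prodMk hWc)
  have h1 : ‖∫ t in (0 : ℝ)..T, (ℓ (X t + w, W t + 0) - ℓ (X t, W t))‖ ≤
      C * ‖w‖ * |T - 0| := by
    refine intervalIntegral.norm_integral_le_of_norm_le_const fun t _ => ?_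
    have h2 := hC (X t, W t) (X t + w, W t + 0) (hW t) (by
      change ‖W t + 0‖ ≤ M
      rw [add_zero]
      exact hW t)
    have e1 : ((X t + w, W t + 0) : Vec n × Vec n) - (X t, W t) = (w, 0) := by
      ext <;> simp
    rw [e1] at h2
    have e2 : ‖((w, 0) : Vec n × Vec n)‖ = ‖w‖ := by
      rw [Prod.norm_def, norm_zero]
      exact max_eq_left (norm_nonneg w)
    rwa [e2] at h2
  rw [sub_zero, abs_of_pos hT, intervalIntegral.integral_sub (c1.intervalIntegrable _ _)
    (c2.intervalIntegrable _ _), Real.norm_eq_abs] at h1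
  have h3 := (abs_le.1 h1).2
  unfold DV.act
  linarith

/-- closed minimal solutions of class `l` and period `T` -/
theorem exists_per (h : Sys ℓ) (hft : FT ℓ) {T : ℝ} (hT : 0 < T) (l : Fin n → ℤ) :
    ∃ X W : ℝ → Vec n, Sol ℓ X W ∧ (∀ t, X (t + T) = X t + zv l) ∧
      ∀ z u : ℝ → Vec n, VCv z u 0 T → z T = z 0 + zv l → act ℓ X W 0 T ≤ act ℓ z u 0 T := by
  have hmu : Continuous fun _ : ℝ => (0 : Vec n) := continuous_const
  choose XX WW hx0 hxT hmin using fun x : Vec n => hft T hT x (x + zv l)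
  obtain ⟨M, hM0, hM⟩ := spd h (‖(zv l : Vec n)‖ / T)
  have hspeed : ∀ x t, ‖WW x t‖ ≤ M := by
    intro x
    refine hM (XX x) (WW x) T (hmin x) hT ?_
    rw [hx0, hxT, add_sub_cancel_left, div_mul_cancel₀ _ hT.ne']
  -- translated curves
  have hcmp : ∀ x w : Vec n, act ℓ (XX (x + w)) (WW (x + w)) 0 T ≤
      act ℓ (fun t => XX x t + w) (fun t => WW x t + 0) 0 T := by
    intro x w
    have hv : VCv (fun t => XX x t + w) (fun t => WW x t + 0) 0 T :=
      var_vcv h.lag (hmin x).1 (lam := fun _ => w) (mu := fun _ => 0) hmu (per_const w) hT.le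
    refine (hmin (x + w)).2 _ _ hv ?_ ?_
    · rw [hx0, hx0]
    · rw [hxT, hxT]
      abel
  obtain ⟨C, hC0, hC⟩ := per_lip h M
  have hlip : ∀ x y : Vec n, act ℓ (XX y) (WW y) 0 T ≤
      act ℓ (XX x) (WW x) 0 T + C * ‖y - x‖ * T := by
    intro x y
    have h1 := hcmp x (y - x)
    rw [add_sub_cancel] at h1
    exact h1.trans (hC _ _ T (hmin x).1 hT (hspeed x) (y - x))
  have hper : ∀ (x : Vec n) (m : Fin n → ℤ), act ℓ (XX (x + zv m)) (WW (x + zv m)) 0 T ≤
      act ℓ (XX x) (WW x) 0 T := by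
    intro x m
    refine (hcmp x (zv m)).trans (le_of_eq ?_)
    unfold DV.act
    refine intervalIntegral.integral_congr fun t _ => ?_
    change ℓ (XX x t + zv m, WW x t + 0) = ℓ (XX x t, WW x t)
    rw [add_zero]
    exact h.pr _ _ _
  have hcont : Continuous fun x : Vec n => act ℓ (XX x) (WW x) 0 T := by
    have hL : LipschitzWith (Real.toNNReal (C * T)) fun x : Vec n => act ℓ (XX x) (WW x) 0 T := by
      refine LipschitzWith.of_dist_le_mul fun x y => ?_
      rw [Real.coe_toNNReal _ (mul_nonneg hC0 hT.le), Real.dist_eq, abs_le]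
      have h1 := hlip x y
      have h2 := hlip y x
      rw [dist_eq_norm]
      have h3 : ‖y - x‖ = ‖x - y‖ := norm_sub_rev y x
      rw [h3] at h1
      constructor
      · nlinarith
      · nlinarith
    exact hL.continuous
  obtain ⟨x₀, -, hx₀⟩ := (isCompact_closedBall (0 : Vec n) (n : ℝ)).exists_isMinOn
    ⟨0, Metric.mem_closedBall_self (Nat.cast_nonneg n)⟩ hcont.continuousOn
  have hglob : ∀ x : Vec n, act ℓ (XX x₀) (WW x₀) 0 T ≤ act ℓ (XX x) (WW x) 0 T := by
    intro x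
    obtain ⟨m, hm⟩ := zv_sub' x
    have h1 : act ℓ (XX x₀) (WW x₀) 0 T ≤ act ℓ (XX (x + zv m)) (WW (x + zv m)) 0 T :=
      hx₀ (mem_closedBall_zero_iff.2 hm)
    exact h1.trans (hper x m)
  have hS := (hmin x₀).1
  -- the momenta match
  obtain ⟨K, hK0, hK⟩ := first_var h.lag h.pr M
  set P : Vec n := pm ℓ (XX x₀ T, WW x₀ T) - pm ℓ (XX x₀ 0, WW x₀ 0) with hP
  have hvar : ∀ w : Vec n, ‖w‖ ≤ 1 → -(K * ‖w‖ ^ 2 * T) ≤ ⟪P, w⟫ := by
    intro w hw
    have h1 := hK (XX x₀) (WW x₀) hS 0 T hT.le (fun t _ => hspeed x₀ t) (fun _ => w)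
      (fun _ => 0) ‖w‖ hmu (per_const w) hw (fun t _ => ⟨le_rfl, by
        rw [norm_zero]
        exact norm_nonneg w⟩)
    have h2 := (hglob (x₀ + w)).trans (hcmp x₀ w)
    have h3 := (abs_le.1 h1).2
    rw [sub_zero, ← inner_sub_left] at h3
    linarith
  have hP0 : P = 0 := by
    by_contra hne
    have hpos : 0 < ‖P‖ := norm_pos_iff.2 hne
    set ε : ℝ := min (1 / (‖P‖ + 1)) (1 / (2 * (K * T + 1))) with hε
    have hKT : 0 ≤ K * T := mul_nonneg hK0 hT.le
    have hε0 : 0 < ε := lt_min (by positivity) (by positivity)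
    have hε1 : ε * (‖P‖ + 1) ≤ 1 := by
      have := mul_le_mul_of_nonneg_right (min_le_left (1 / (‖P‖ + 1)) (1 / (2 * (K * T + 1))))
        (show 0 ≤ ‖P‖ + 1 by positivity)
      rwa [one_div_mul_cancel (by positivity)] at this
    have hε2 : ε * (2 * (K * T + 1)) ≤ 1 := by
      have := mul_le_mul_of_nonneg_right (min_le_right (1 / (‖P‖ + 1)) (1 / (2 * (K * T + 1))))
        (show 0 ≤ 2 * (K * T + 1) by positivity)
      rwa [one_div_mul_cancel (by positivity)] at this
    have hn : ‖-(ε • P)‖ = ε * ‖P‖ := by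
      rw [norm_neg, norm_smul, Real.norm_of_nonneg hε0.le]
    have h1 := hvar (-(ε • P)) (by
      rw [hn]
      nlinarith)
    rw [hn, inner_neg_right, inner_smul_right, real_inner_self_eq_norm_sq] at h1
    have h2 : ε * ‖P‖ ^ 2 ≤ (ε * ‖P‖ ^ 2) * (K * T * ε) := by nlinarith
    have h3 : 0 < ε * ‖P‖ ^ 2 := by positivity
    have h4 : 1 ≤ K * T * ε := by
      by_contra h5
      have := mul_lt_mul_of_pos_left (not_le.1 h5) h3
      linarith
    nlinarith
  have hW : WW x₀ T = WW x₀ 0 := by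
    have h1 : pm ℓ (XX x₀ T, WW x₀ T) = pm ℓ (XX x₀ 0, WW x₀ 0) := sub_eq_zero.1 hP0
    have h2 : Lam ℓ (XX x₀ T, WW x₀ T) = Lam ℓ (XX x₀ T, WW x₀ 0) := by
      have e : XX x₀ T = XX x₀ 0 + zv l := by rw [hx0, hxT]
      have h3 : pm ℓ (XX x₀ T, WW x₀ 0) = pm ℓ (XX x₀ 0, WW x₀ 0) := by
        rw [e]
        exact h.pr.pm _ _ _
      exact Prod.ext rfl (h1.trans h3.symm)
    exact congrArg Prod.snd (h.lag.lam_inj h2)
  refine ⟨XX x₀, WW x₀, hS, ?_, fun z u hv hz => ?_⟩
  · have h1 := hS.shift h.pr (-T) (-l)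
    obtain ⟨h2, -⟩ := h1.uniq h.lag h.ana hS (s := 0) (by
      change XX x₀ (0 - -T) + zv (-l) = XX x₀ 0
      rw [sub_neg_eq_add, zero_add, hxT, hx0, per_zv_neg]
      abel) (by
      change WW x₀ (0 - -T) = WW x₀ 0
      rw [sub_neg_eq_add, zero_add, hW])
    intro t
    have h3 := congrFun h2 t
    change XX x₀ (t - -T) + zv (-l) = XX x₀ t at h3
    rw [sub_neg_eq_add, per_zv_neg] at h3
    rw [← h3]
    abel
  · refine (hglob (z 0)).trans ((hmin (z 0)).2 z u hv ?_ ?_)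
    · rw [hx0]
    · rw [hxT, hz]

end Pool.Agent.DG
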