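import Pool.Agent.DG.Per
import Pool.Agent.DG.Mem

/-!
# D2 block V, file DG/Up: Mather's function and closed curves (any n)

PROOFS.
`clo_alpha`: let `z, u` be a closed curve of class `l` and duration `T`; `exists_per` gives the minimal
closed solution `X, W`, so `act z u ≥ act X W`; `act_mem` and `csInf_le` with `bdd_acts`:
`-alpha L φ c ≤ T⁻¹ (act X W - ⟪c, zv l⟫)`; multiply by `T`.
`orb_low` (copy of `vq_key` in `LRig/VQ`): `z = (proj x, v, τ)`, the solution `X, W` with `X 0 = x`,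
`W 0 = v` (`Cpl`), `φ s z = (proj (X s), W s, ..)` by `flow_sol`, so the integral is
`∫_0^k (ℓ (X, W) - ⟪c, W⟫) = act X W 0 k - ⟪c, X k - X 0⟫`.  Close the curve by a segment of duration `1`
and speed at most `n` (`zv_sub'`: `l` with `‖X 0 - X k + zv l‖ ≤ n`; `line` with `R = n`; shift the
segment by `k` in time: `vcv_shift0`, `act_shift0`; `VCv.glue`, `act_glue`): by `CloR` for the closed curve
of class `l` and duration `k + 1`.
`alpha_le`: copy of `alpha_le_of_clo` in `LRig/VQ` (Fubini and invariance), with `orb_low` in the place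
of `vq_key`; the set of actions is not empty by `exists_per` (`T = 1`, `l = 0`) and `act_mem`.
Continuity of `z ↦ L z.1 z.2.1 z.2.2` on the torus: as `L_cont` in `LRig` (quotient map).
-/

set_option autoImplicit false

namespace Pool.Agent.DG

open Set Filter Topology MeasureTheory Pool.Agent.MechAlpha Pool.Agent.DF Pool.Agent.LRig
  Pool.Agent.DV Pool.Agent.NOne
open scoped ContDiff RealInnerProductSpace

variable {n : ℕ} {L : Torus n → Vec n → UnitAddCircle → ℝ} {φ : ℝ → Phase n → Phase n}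

private theorem up_oq : IsOpenQuotientMap (proj (n := n)) := by
  have h1 : IsOpenQuotientMap (Pi.map fun (_ : Fin n) (x : ℝ) => (x : UnitAddCircle)) :=
    IsOpenQuotientMap.piMap fun _ => QuotientAddGroup.isOpenQuotientMap_mk
  exact h1.comp (PiLp.homeomorph 2 (fun _ : Fin n => ℝ)).isOpenQuotientMap

private theorem up_cont (hT : Tonelli L) : Continuous fun z : Phase n => L z.1 z.2.1 z.2.2 := by
  have h1 : IsOpenQuotientMap (Prod.map (proj (n := n))
      (Prod.map (id : Vec n → Vec n) ((↑) : ℝ → UnitAddCircle))) :=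
    up_oq.prodMap (IsOpenQuotientMap.id.prodMap QuotientAddGroup.isOpenQuotientMap_mk)
  refine h1.continuous_comp_iff.1 ?_
  have h2 : ContDiff ℝ ∞ (fun q : Vec n × Vec n × ℝ =>
      L (proj q.1) q.2.1 (q.2.2 : UnitAddCircle)) :=
    contDiffOn_univ.1 (hT.ana.contDiffOn uniqueDiffOn_univ)
  exact h2.continuous

private theorem up_inner {z u : ℝ → Vec n} {s t : ℝ} (hz : VCv z u s t) (c : Vec n) :
    IntervalIntegrable (fun r => ⟪c, u r⟫) volume s t ∧
      ∫ r in s..t, ⟪c, u r⟫ = ⟪c, z t - z s⟫ := by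
  have h1 := hz.integrable
  have h2 := ContinuousLinearMap.intervalIntegral_comp_comm (innerSL ℝ c) h1
  have h3 : IntervalIntegrable (fun r => ⟪c, u r⟫) volume s t :=
    ⟨(innerSL ℝ c).integrable_comp h1.1, (innerSL ℝ c).integrable_comp h1.2⟩
  refine ⟨h3, ?_⟩
  rw [hz.ftc] at h2
  exact h2

theorem clo_alpha (hT : Tonelli L) (hA : Auto L) (hφ : IsELFlow L φ) (hft : FT (lft2 L))
    (c : Vec n) : CloR (lft2 L) c (alpha L φ c) := by
  intro z u T l hT0 hz hl
  have hS := sys_of hT hA hφ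
  obtain ⟨X, W, hX, hp, hm⟩ := exists_per hS hft hT0 l
  have h1 : -alpha L φ c ≤ T⁻¹ * (act (lft2 L) X W 0 T - ⟪c, zv l⟫) := by
    rw [alpha, neg_neg]
    exact csInf_le (bdd_acts hT hA φ c) (act_mem hT hA hφ hX hT0 hp c)
  have h2 := hm z u hz hl
  rw [inv_mul_eq_div, le_div_iff₀ hT0] at h1
  linarith

/-- the lower bound along the orbits -/
theorem orb_low (hT : Tonelli L) (hA : Auto L) (hφ : IsELFlow L φ) {c : Vec n} {k : ℝ}
    (h : CloR (lft2 L) c k) : ∃ C : ℝ, ∀ (N : ℕ) (z : Phase n), -(k * (N + 1)) - C ≤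
      ∫ s in (0 : ℝ)..N, (L (φ s z).1 (φ s z).2.1 (φ s z).2.2 - ⟪c, (φ s z).2.1⟫) := by
  have hS := sys_of hT hA hφ
  obtain ⟨C0, hC0, hline⟩ := line hS (n : ℝ)
  refine ⟨C0 + ‖c‖ * n, fun N z => ?_⟩
  obtain ⟨q, v, τ⟩ := z
  obtain ⟨x, rfl⟩ := up_oq.surjective q
  obtain ⟨X, W, hX, hx, hw⟩ := hS.cpl x v
  have hN0 : (0 : ℝ) ≤ N := Nat.cast_nonneg N
  have g1 : VCv X W 0 N := hX.vcv hS.lag hN0
  have hfl : ∀ s : ℝ, L (φ s (proj x, v, τ)).1 (φ s (proj x, v, τ)).2.1 (φ s (proj x, v, τ)).2.2 -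
      ⟪c, (φ s (proj x, v, τ)).2.1⟫ = lft2 L (X s, W s) - ⟪c, W s⟫ := by
    intro s
    have h1 := flow_sol hT hA hφ hX s 0 τ
    rw [hx, hw, zero_add] at h1
    rw [h1]
    change L (proj (X s)) (W s) (τ + (s : UnitAddCircle)) - _ = L (proj (X s)) (W s) 0 - _
    rw [hA _ _ _ 0]
  obtain ⟨i1, e1⟩ := up_inner g1 c
  have e0 : (∫ s in (0 : ℝ)..N, (L (φ s (proj x, v, τ)).1 (φ s (proj x, v, τ)).2.1
      (φ s (proj x, v, τ)).2.2 - ⟪c, (φ s (proj x, v, τ)).2.1⟫)) =
      act (lft2 L) X W 0 N - ⟪c, X N - X 0⟫ := by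
    rw [intervalIntegral.integral_congr (g := fun s => lft2 L (X s, W s) - ⟪c, W s⟫)
      (fun s _ => hfl s), intervalIntegral.integral_sub (act_int hS.cont g1) i1, e1]
    rfl
  rw [e0]
  obtain ⟨l, hl⟩ := zv_sub' (X 0 - X N)
  have hl' : ‖X 0 + zv l - X N‖ ≤ n * 1 := by
    rw [mul_one]
    have e : X 0 + zv l - X N = X 0 - X N + zv l := by abel
    rw [e]
    exact hl
  obtain ⟨y, w, hy, hy0, hy1, hyb⟩ := hline (X N) (X 0 + zv l) 1 one_pos hl'
  have g2 := vcv_shift0 hy (N : ℝ)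
  have a2 := act_shift0 (lft2 L) y w 0 1 (N : ℝ)
  rw [zero_add, add_comm (1 : ℝ) (N : ℝ)] at g2 a2
  have hb : X N = y (N - N) := by rw [sub_self, hy0]
  have G := g1.glue g2 hb
  have A := act_glue hS.cont g1 g2 hb
  have h1 := h _ _ ((N : ℝ) + 1) l (by linarith) G (by
    rw [if_neg (show ¬ (N : ℝ) + 1 ≤ N by linarith), if_pos hN0, add_sub_cancel_left, hy1])
  rw [A, a2] at h1
  have h2 := (abs_le.1 hyb).2
  have h3 := (abs_le.1 (abs_real_inner_le_norm c (X 0 - X N + zv l))).1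
  have h4 : ‖c‖ * ‖X 0 - X N + zv l‖ ≤ ‖c‖ * n := mul_le_mul_of_nonneg_left hl (norm_nonneg _)
  have h5 : ⟪c, X 0 - X N + zv l⟫ = ⟪c, zv l⟫ - ⟪c, X N - X 0⟫ := by
    rw [← inner_sub_right]
    congr 1
    abel
  linarith

theorem alpha_le (hT : Tonelli L) (hA : Auto L) (hφ : IsELFlow L φ) (hft : FT (lft2 L))
    {c : Vec n} {k : ℝ} (h : CloR (lft2 L) c k) : alpha L φ c ≤ k := by
  have hne : (actions L φ c).Nonempty := by
    obtain ⟨X, W, hX, hp, -⟩ := exists_per (sys_of hT hA hφ) hft one_pos (0 : Fin n → ℤ)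
    exact ⟨_, act_mem hT hA hφ hX one_pos hp c⟩
  unfold alpha
  rw [neg_le]
  refine le_csInf hne fun r hr => ?_
  obtain ⟨C, key⟩ := orb_low hT hA hφ h
  obtain ⟨μ, ⟨hμ, hinv⟩, hint, rfl⟩ := hr
  set F : Phase n → ℝ := fun z => L z.1 z.2.1 z.2.2 - ⟪c, z.2.1⟫ with hF
  have hFc : Continuous F := by
    have h2 : Continuous fun z : Phase n => z.2.1 := continuous_fst.comp continuous_snd
    exact (up_cont hT).sub (continuous_const.inner h2)
  have hφc : ∀ s, Continuous (φ s) := fun s => by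
    have := hφ.cont.comp (Continuous.prodMk_right (X := ℝ) (Y := Phase n) s)
    exact this
  -- Fubini
  have main : ∀ N : ℕ, -(k * (N + 1)) - C ≤ N * ∫ z, F z ∂μ := by
    intro N
    have hτ : (0 : ℝ) ≤ N := Nat.cast_nonneg N
    have hmeas : ∀ s, MeasurePreserving (φ s) μ μ := fun s => ⟨(hφc s).measurable, hinv s⟩
    have hints : ∀ s, Integrable (fun z => F (φ s z)) μ := fun s =>
      (hmeas s).integrable_comp_of_integrable hint
    have hjoint : Continuous (Function.uncurry fun (s : ℝ) (z : Phase n) => F (φ s z)) :=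
      hFc.comp hφ.cont
    have hprod : Integrable (Function.uncurry fun (s : ℝ) (z : Phase n) => F (φ s z))
        ((volume.restrict (Ioc (0 : ℝ) N)).prod μ) := by
      rw [integrable_prod_iff hjoint.aestronglyMeasurable]
      refine ⟨Filter.Eventually.of_forall fun s => hints s, ?_⟩
      have h1 : ∀ s : ℝ, ∫ z, ‖F (φ s z)‖ ∂μ = ∫ z, ‖F z‖ ∂μ := by
        intro s
        have h2 := integral_map (hmeas s).aemeasurable
          (f := fun z => ‖F z‖) (μ := μ) (hFc.norm.aestronglyMeasurable)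
        rw [hinv s] at h2
        exact h2.symm
      have h2 : (fun s : ℝ => ∫ z, ‖F (φ s z)‖ ∂μ) = fun _ => ∫ z, ‖F z‖ ∂μ := funext h1
      change Integrable (fun s : ℝ => ∫ z, ‖F (φ s z)‖ ∂μ) _
      rw [h2]
      exact integrable_const _
    have hswap := integral_integral_swap
      (μ := volume.restrict (Ioc (0 : ℝ) N)) (ν := μ) hprod
    have h1 : ∀ s : ℝ, ∫ z, F (φ s z) ∂μ = ∫ z, F z ∂μ := by
      intro s
      have h2 := integral_map (hmeas s).aemeasurable (f := F) (μ := μ) hFc.aestronglyMeasurable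
      rw [hinv s] at h2
      exact h2.symm
    have h2 : ∫ s in Ioc (0 : ℝ) N, ∫ z, F (φ s z) ∂μ = N * ∫ z, F z ∂μ := by
      simp only [h1]
      rw [setIntegral_const]
      simp
    rw [← h2, hswap]
    have h3 : ∫ z, (-(k * (N + 1)) - C) ∂μ = -(k * (N + 1)) - C := by
      rw [integral_const]
      simp
    rw [← h3]
    refine integral_mono (integrable_const _) hprod.integral_prod_right fun z => ?_
    have h4 := key N z
    rw [intervalIntegral.integral_of_le hτ] at h4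
    exact h4
  -- the limit
  by_contra hcon
  push Not at hcon
  set r : ℝ := ∫ z, F z ∂μ with hr
  have hd : 0 < -k - r := by
    have : r < -k := hcon
    linarith
  obtain ⟨N, hN⟩ := exists_nat_gt (|k + C| / (-k - r))
  rw [div_lt_iff₀ hd] at hN
  have h1 := main N
  have h2 := le_abs_self (k + C)
  nlinarith

theorem alpha_iff (hT : Tonelli L) (hA : Auto L) (hφ : IsELFlow L φ) (hft : FT (lft2 L))
    (c : Vec n) (k : ℝ) : alpha L φ c ≤ k ↔ CloR (lft2 L) c k := by
  refine ⟨fun h z u T l hT0 hz hl => ?_, alpha_le hT hA hφ hft⟩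
  have h1 := clo_alpha hT hA hφ hft c z u T l hT0 hz hl
  have h2 : alpha L φ c * T ≤ k * T := mul_le_mul_of_nonneg_right h hT0.le
  linarith

end Pool.Agent.DG
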